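import Mathlib

open MeasureTheory ProbabilityTheory Finset

namespace Pool.Agent.Results.MP_950aae_pr.FirstOrder

/-! ### Definitions used in the statement -/

/-- The relations `σ ^ k = τ ^ 2 = (σ τ) ^ 3 = 1`, where `σ` is the generator `false` and `τ` is
the generator `true`. -/
def rels (k : ℕ) : Set (FreeGroup Bool) :=
  {FreeGroup.of false ^ k, FreeGroup.of true ^ 2, (FreeGroup.of false * FreeGroup.of true) ^ 3}

/-- The von Dyck group `⟨σ, τ | σ ^ k = τ ^ 2 = (σ τ) ^ 3 = 1⟩`, that is, the group of orientation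
preserving symmetries of the tessellation of the hyperbolic plane (`k ≥ 7`) by triangles with `k`
triangles around each vertex. It acts simply transitively on the darts (directed edges) of the
tessellation, so its elements are identified with the darts. -/
abbrev Dyck (k : ℕ) : Type := PresentedGroup (rels k)

/-- `σ`: the dart `g * σ` is the next dart with the same initial vertex as the dart `g`. -/
def sg (k : ℕ) : Dyck k := PresentedGroup.of false

/-- `τ`: the dart `g * τ` is the reverse of the dart `g`. -/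
def ta (k : ℕ) : Dyck k := PresentedGroup.of true

/-- `H k`, the `k`-regular planar triangulation (the triangulation of the hyperbolic plane with
`k` triangles meeting at each vertex). The vertices are the left cosets of the group generated
by `σ` (the coset of `g` is the initial vertex of the dart `g`), and the dart `g` joins its
initial vertex to the initial vertex of the reverse dart `g * τ`. The relation
`(σ τ) ^ 3 = 1` says that every face is a triangle. (Proved below: for `k ≥ 7` this graph is
connected, infinite, `k`-regular and vertex-transitive.) -/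
def H (k : ℕ) : SimpleGraph (Dyck k ⧸ Subgroup.zpowers (sg k)) :=
  SimpleGraph.fromRel (fun u v => ∃ g : Dyck k, u = QuotientGroup.mk g ∧
    v = QuotientGroup.mk (g * ta k))

/-- The full binary tree `T_2`: its vertices are the finite words in `{true, false}`, the root is
the empty word, and the two children of the word `w` are `true :: w` and `false :: w`. -/
def T2 : SimpleGraph (List Bool) := SimpleGraph.fromRel (fun w w' => ∃ b, w' = b :: w)

/-- The product measure on `ι → Bool` under which the coordinates are independent and each is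
`true` with probability `p`. For `ι = G.edgeSet` this is Bernoulli bond percolation on `G` with
parameter `p` (an edge `e` is open in the configuration `ω` when `ω e = true`). -/
noncomputable def percMeasure (ι : Type*) (p : unitInterval) : Measure (ι → Bool) :=
  Measure.infinitePi (fun _ : ι => bernoulliMeasure true false p)

/-- The subgraph of `G` formed by the open edges of the configuration `ω`. -/
def openGraph {V : Type} (G : SimpleGraph V) (ω : G.edgeSet → Bool) : SimpleGraph V where
  Adj u v := ∃ h : G.Adj u v, ω ⟨s(u, v), h⟩ = true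
  symm := ⟨by
    rintro u v ⟨h, ho⟩
    refine ⟨h.symm, ?_⟩
    rw [← ho]
    congr 1
    exact Subtype.ext Sym2.eq_swap⟩
  loopless := ⟨fun v ⟨h, _⟩ => h.ne rfl⟩

/-- The event `E`: some open cluster (connected component of the open subgraph) contains a
subgraph isomorphic to the full binary tree. -/
def treeEvent {V : Type} (G : SimpleGraph V) : Set (G.edgeSet → Bool) :=
  {ω | ∃ C : (openGraph G ω).ConnectedComponent, T2.IsContained C.toSimpleGraph}

/-- The critical value `p_bt = inf {p ∈ [0,1] : P_p(E) = 1}`. -/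
noncomputable def pbt {V : Type} (G : SimpleGraph V) : unitInterval :=
  sInf {p : unitInterval | percMeasure G.edgeSet p (treeEvent G) = 1}

/-! ### The van den Berg–Kesten inequality -/

section BKsec

variable {α : Type*} [DecidableEq α]

/-- weight of the subset `S` of `Λ` when elements are present independently with prob. `p` -/
def wt (p : ℝ) (Λ S : Finset α) : ℝ := ∏ e ∈ Λ, if e ∈ S then p else 1 - p

open Classical in
/-- probability of the set family `A` for a random subset of `Λ` -/
noncomputable def q (p : ℝ) (Λ : Finset α) (A : Set (Finset α)) : ℝ :=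
  ∑ S ∈ Λ.powerset, if S ∈ A then wt p Λ S else 0

/-- disjoint occurrence -/
def box (A B : Set (Finset α)) : Set (Finset α) :=
  {S | ∃ I J, Disjoint I J ∧ I ⊆ S ∧ J ⊆ S ∧ I ∈ A ∧ J ∈ B}

/-- increasing families -/
def Up (A : Set (Finset α)) : Prop := ∀ S T, S ⊆ T → S ∈ A → T ∈ A

/-- the family obtained by adding `e` -/
def addE (e : α) (A : Set (Finset α)) : Set (Finset α) := {S | insert e S ∈ A}

theorem wt_nonneg {p : ℝ} (h0 : 0 ≤ p) (h1 : p ≤ 1) (Λ S : Finset α) : 0 ≤ wt p Λ S := by
  unfold wt
  apply Finset.prod_nonneg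
  intro e _
  split_ifs <;> linarith

theorem wt_insert {p : ℝ} {e : α} {Λ S : Finset α} (he : e ∉ Λ) (hS : S ⊆ Λ) :
    wt p (insert e Λ) S = (1 - p) * wt p Λ S := by
  unfold wt
  rw [Finset.prod_insert he, if_neg (fun h => he (hS h))]

theorem wt_insert' {p : ℝ} {e : α} {Λ S : Finset α} (he : e ∉ Λ) :
    wt p (insert e Λ) (insert e S) = p * wt p Λ S := by
  unfold wt
  rw [Finset.prod_insert he, if_pos (Finset.mem_insert_self _ _)]
  congr 1
  apply Finset.prod_congr rfl
  intro x hx
  have : x ≠ e := fun h => he (h ▸ hx)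
  simp [Finset.mem_insert, this]

theorem q_insert (p : ℝ) {e : α} {Λ : Finset α} (he : e ∉ Λ) (A : Set (Finset α)) :
    q p (insert e Λ) A = (1 - p) * q p Λ A + p * q p Λ (addE e A) := by
  classical
  unfold q
  rw [Finset.sum_powerset_insert he, Finset.mul_sum, Finset.mul_sum]
  congr 1
  · apply Finset.sum_congr rfl
    intro S hS
    rw [Finset.mem_powerset] at hS
    rw [wt_insert he hS]
    split_ifs <;> simp
  · apply Finset.sum_congr rfl
    intro S hS
    rw [wt_insert' he]
    by_cases h : insert e S ∈ A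
    · have h' : S ∈ addE e A := h
      simp [h, h']
    · have h' : S ∉ addE e A := h
      simp [h, h']

theorem q_nonneg {p : ℝ} (h0 : 0 ≤ p) (h1 : p ≤ 1) (Λ : Finset α) (A : Set (Finset α)) :
    0 ≤ q p Λ A := by
  unfold q
  apply Finset.sum_nonneg
  intro S _
  split_ifs
  · exact wt_nonneg h0 h1 _ _
  · exact le_refl _

theorem Up.addE {A : Set (Finset α)} (hA : Up A) (e : α) : Up (addE e A) := by
  intro S T hST hS
  exact hA _ _ (Finset.insert_subset_insert e hST) hS

theorem sub_addE {A : Set (Finset α)} (hA : Up A) (e : α) : A ⊆ addE e A := by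
  intro S hS
  exact hA _ _ (Finset.subset_insert e S) hS

omit [DecidableEq α] in
theorem box_mono {A B A' B' : Set (Finset α)} (hA : A ⊆ A') (hB : B ⊆ B') :
    box A B ⊆ box A' B' := by
  rintro S ⟨I, J, h1, h2, h3, h4, h5⟩
  exact ⟨I, J, h1, h2, h3, hA h4, hB h5⟩

theorem addE_box {A B : Set (Finset α)} {e : α} {S : Finset α}
    (h : S ∈ addE e (box A B)) : S ∈ box A B ∨ S ∈ box (addE e A) B ∨ S ∈ box A (addE e B) := by
  obtain ⟨I, J, h1, h2, h3, h4, h5⟩ := h
  have hsub : ∀ K : Finset α, K ⊆ insert e S → K.erase e ⊆ S := by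
    intro K hK x hx
    rw [Finset.mem_erase] at hx
    rcases Finset.mem_insert.1 (hK hx.2) with h | h
    · exact absurd h hx.1
    · exact h
  have hsub' : ∀ K : Finset α, K ⊆ insert e S → e ∉ K → K ⊆ S := by
    intro K hK he x hx
    rcases Finset.mem_insert.1 (hK hx) with h | h
    · exact absurd (h ▸ hx) he
    · exact h
  by_cases heI : e ∈ I
  · have heJ : e ∉ J := Finset.disjoint_left.1 h1 heI
    right; left
    refine ⟨I.erase e, J, Finset.disjoint_of_subset_left (Finset.erase_subset _ _) h1,
      hsub I h2, hsub' J h3 heJ, ?_, h5⟩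
    simp only [addE, Set.mem_ofPred_eq, Finset.insert_erase heI]
    exact h4
  · by_cases heJ : e ∈ J
    · right; right
      refine ⟨I, J.erase e, Finset.disjoint_of_subset_right (Finset.erase_subset _ _) h1,
        hsub' I h2 heI, hsub J h3, h4, ?_⟩
      simp only [addE, Set.mem_ofPred_eq, Finset.insert_erase heJ]
      exact h5
    · left
      exact ⟨I, J, h1, hsub' I h2 heI, hsub' J h3 heJ, h4, h5⟩

/-- The van den Berg–Kesten inequality for increasing families. -/
theorem bk {p : ℝ} (h0 : 0 ≤ p) (h1 : p ≤ 1) (Λ : Finset α) : ∀ A B : Set (Finset α),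
    Up A → Up B → q p Λ (box A B) ≤ q p Λ A * q p Λ B := by
  classical
  induction Λ using Finset.induction_on with
  | empty =>
    intro A B _ _
    simp only [q, Finset.powerset_empty, Finset.sum_singleton, wt, Finset.prod_empty]
    by_cases h : (∅ : Finset α) ∈ box A B
    · obtain ⟨I, J, -, h2, h3, h4, h5⟩ := h
      have hI : I = ∅ := Finset.subset_empty.1 h2
      have hJ : J = ∅ := Finset.subset_empty.1 h3
      subst hI; subst hJ
      simp only [h4, h5, if_true]
      split_ifs <;> norm_num
    · rw [if_neg h]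
      split_ifs <;> norm_num
  | insert e Λ he ih =>
    intro A B hA hB
    have key : q p (insert e Λ) (box A B) ≤ (1 - p) * (1 - p) * q p Λ (box A B) +
        p * (1 - p) * q p Λ (box (addE e A) B) + p * (1 - p) * q p Λ (box A (addE e B)) +
        p * p * q p Λ (box (addE e A) (addE e B)) := by
      rw [q_insert p he]
      unfold q
      simp only [Finset.mul_sum, ← Finset.sum_add_distrib]
      apply Finset.sum_le_sum
      intro S _
      have hw := wt_nonneg h0 h1 Λ S
      have m1 : S ∈ box A B → S ∈ box (addE e A) B := fun h => box_mono (sub_addE hA e) le_rfl h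
      have m2 : S ∈ box A B → S ∈ box A (addE e B) := fun h => box_mono le_rfl (sub_addE hB e) h
      have m3 : S ∈ box (addE e A) B → S ∈ box (addE e A) (addE e B) :=
        fun h => box_mono le_rfl (sub_addE hB e) h
      have m4 : S ∈ box A (addE e B) → S ∈ box (addE e A) (addE e B) :=
        fun h => box_mono (sub_addE hA e) le_rfl h
      have m5 : S ∈ addE e (box A B) → S ∈ box A B ∨ S ∈ box (addE e A) B ∨ S ∈ box A (addE e B) :=
        fun h => addE_box h
      have hq : 0 ≤ 1 - p := by linarith
      have t1 : 0 ≤ p * (1 - p) * wt p Λ S := by positivity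
      have t2 : 0 ≤ p * p * wt p Λ S := by positivity
      have t3 : 0 ≤ (1 - p) * (1 - p) * wt p Λ S := by positivity
      by_cases c1 : S ∈ box A B
      · have c2 := m1 c1
        have c3 := m2 c1
        have c4 := m3 c2
        simp only [c1, c2, c3, c4, if_true]
        split_ifs <;> nlinarith
      · by_cases c2 : S ∈ box (addE e A) B
        · have c4 := m3 c2
          by_cases c3 : S ∈ box A (addE e B)
          · simp only [c1, c2, c3, c4, if_true, if_false]
            split_ifs <;> nlinarith
          · simp only [c1, c2, c3, c4, if_true, if_false]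
            split_ifs <;> nlinarith
        · by_cases c3 : S ∈ box A (addE e B)
          · have c4 := m4 c3
            simp only [c1, c2, c3, c4, if_true, if_false]
            split_ifs <;> nlinarith
          · have c5 : S ∉ addE e (box A B) := by
              intro h
              rcases m5 h with h | h | h <;> contradiction
            simp only [c1, c2, c3, c5, if_false]
            split_ifs <;> nlinarith
    refine key.trans ?_
    rw [q_insert p he, q_insert p he]
    have i1 := ih A B hA hB
    have i2 := ih (addE e A) B (hA.addE e) hB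
    have i3 := ih A (addE e B) hA (hB.addE e)
    have i4 := ih (addE e A) (addE e B) (hA.addE e) (hB.addE e)
    have hq : 0 ≤ 1 - p := by linarith
    have j1 := mul_le_mul_of_nonneg_left i1 (mul_nonneg hq hq)
    have j2 := mul_le_mul_of_nonneg_left i2 (mul_nonneg h0 hq)
    have j3 := mul_le_mul_of_nonneg_left i3 (mul_nonneg h0 hq)
    have j4 := mul_le_mul_of_nonneg_left i4 (mul_nonneg h0 h0)
    calc _ ≤ (1 - p) * (1 - p) * (q p Λ A * q p Λ B) + p * (1 - p) * (q p Λ (addE e A) * q p Λ B) +
          p * (1 - p) * (q p Λ A * q p Λ (addE e B)) +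
          p * p * (q p Λ (addE e A) * q p Λ (addE e B)) := by linarith
      _ = _ := by ring

theorem q_mono {p : ℝ} (h0 : 0 ≤ p) (h1 : p ≤ 1) (Λ : Finset α) {A B : Set (Finset α)}
    (h : ∀ S ∈ A, S ∈ B) : q p Λ A ≤ q p Λ B := by
  classical
  unfold q
  apply Finset.sum_le_sum
  intro S _
  have := wt_nonneg h0 h1 Λ S
  by_cases hA : S ∈ A
  · rw [if_pos hA, if_pos (h S hA)]
  · rw [if_neg hA]; split_ifs <;> simp [this]

theorem q_iUnion_le {p : ℝ} (h0 : 0 ≤ p) (h1 : p ≤ 1) (Λ : Finset α) {ι : Type*} (s : Finset ι)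
    (A : ι → Set (Finset α)) : q p Λ (⋃ i ∈ s, A i) ≤ ∑ i ∈ s, q p Λ (A i) := by
  classical
  unfold q
  rw [Finset.sum_comm]
  apply Finset.sum_le_sum
  intro S _
  have hw := wt_nonneg h0 h1 Λ S
  by_cases hS : S ∈ ⋃ i ∈ s, A i
  · rw [if_pos hS]
    simp only [Set.mem_iUnion] at hS
    obtain ⟨i, hi, hSi⟩ := hS
    have := Finset.single_le_sum (f := fun i => if S ∈ A i then wt p Λ S else 0)
      (fun i _ => by split_ifs <;> simp [hw]) hi
    simpa [hSi] using this
  · rw [if_neg hS]
    apply Finset.sum_nonneg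
    intro i _
    split_ifs <;> simp [hw]

theorem q_continuous (Λ : Finset α) (A : Set (Finset α)) : Continuous (fun p : ℝ => q p Λ A) := by
  classical
  unfold q wt
  apply continuous_finsetSum
  intro S _
  by_cases h : S ∈ A
  · simp only [if_pos h]
    apply continuous_finsetProd
    intro e _
    split_ifs <;> fun_prop
  · simp only [if_neg h]; exact continuous_const

end BKsec

/-! ### Product measures -/

section PMsec

variable {ι : Type*} [DecidableEq ι]

instance (ι : Type*) (p : unitInterval) : IsProbabilityMeasure (percMeasure ι p) := by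
  unfold percMeasure; infer_instance

theorem ber_true (p : unitInterval) :
    (bernoulliMeasure true false p) ({true} : Set Bool) = ENNReal.ofReal p := by
  rw [bernoulliMeasure_apply_of_mem_of_notMem p (measurableSet_singleton _) (by simp) (by simp)]
  rw [ENNReal.ofReal]
  congr 1
  ext
  simp
  exact p.2.1

theorem ber_false (p : unitInterval) :
    (bernoulliMeasure true false p) ({false} : Set Bool) = ENNReal.ofReal (1 - p) := by
  rw [bernoulliMeasure_apply_of_notMem_of_mem p (measurableSet_singleton _) (by simp) (by simp)]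
  rw [ENNReal.ofReal]
  congr 1
  ext
  simp [unitInterval.coe_symm_eq]
  exact p.2.2

/-- the open elements of `Λ` -/
def opn (Λ : Finset ι) (ω : ι → Bool) : Finset ι := Λ.filter (fun e => ω e = true)

theorem opn_eq_pi (Λ S : Finset ι) (hS : S ⊆ Λ) : {ω : ι → Bool | opn Λ ω = S} =
    Set.pi (Λ : Set ι) (fun e => if e ∈ S then {true} else {false}) := by
  ext ω
  simp only [Set.mem_ofPred_eq, Set.mem_pi, Finset.mem_coe]
  constructor
  · intro h e he
    by_cases heS : e ∈ S
    · rw [if_pos heS]
      rw [← h] at heS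
      simp [opn] at heS
      simp [heS.2]
    · rw [if_neg heS]
      rw [← h] at heS
      simp [opn, he] at heS
      simp [heS]
  · intro h
    ext e
    simp only [opn, Finset.mem_filter]
    constructor
    · rintro ⟨he, ht⟩
      by_contra heS
      have := h e he
      rw [if_neg heS, ht] at this
      simp at this
    · intro heS
      have := h e (hS heS)
      rw [if_pos heS] at this
      exact ⟨hS heS, by simpa using this⟩

theorem opn_meas (Λ S : Finset ι) (hS : S ⊆ Λ) : MeasurableSet {ω : ι → Bool | opn Λ ω = S} := by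
  rw [opn_eq_pi Λ S hS]
  apply MeasurableSet.pi (Finset.countable_toSet _)
  intro e _
  split_ifs <;> exact measurableSet_singleton _

theorem opn_prob (p : unitInterval) (Λ S : Finset ι) (hS : S ⊆ Λ) :
    percMeasure ι p {ω : ι → Bool | opn Λ ω = S} = ENNReal.ofReal (wt p Λ S) := by
  rw [opn_eq_pi Λ S hS]
  unfold percMeasure wt
  rw [Measure.infinitePi_pi]
  · rw [ENNReal.ofReal_prod_of_nonneg]
    · apply Finset.prod_congr rfl
      intro e _
      split_ifs
      · exact ber_true p
      · exact ber_false p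
    · intro e _
      have := p.2.1
      have := p.2.2
      split_ifs <;> linarith
  · intro e _
    split_ifs <;> exact measurableSet_singleton _

omit [DecidableEq ι] in
theorem cyl_eq (Λ : Finset ι) (A : Set (Finset ι)) [DecidablePred (· ∈ A)] :
    {ω : ι → Bool | opn Λ ω ∈ A} =
      ⋃ S ∈ Λ.powerset.filter (· ∈ A), {ω : ι → Bool | opn Λ ω = S} := by
  ext ω
  simp only [Set.mem_ofPred_eq, Set.mem_iUnion, Finset.mem_filter, Finset.mem_powerset]
  constructor
  · intro h
    exact ⟨opn Λ ω, ⟨Finset.filter_subset _ _, h⟩, rfl⟩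
  · rintro ⟨S, ⟨_, h⟩, rfl⟩; exact h

theorem cyl_meas (Λ : Finset ι) (A : Set (Finset ι)) :
    MeasurableSet {ω : ι → Bool | opn Λ ω ∈ A} := by
  classical
  rw [cyl_eq]
  apply Finset.measurableSet_biUnion
  intro S hS
  simp only [Finset.mem_filter, Finset.mem_powerset] at hS
  exact opn_meas Λ S hS.1

theorem cyl_prob (p : unitInterval) (Λ : Finset ι) (A : Set (Finset ι)) :
    percMeasure ι p {ω : ι → Bool | opn Λ ω ∈ A} = ENNReal.ofReal (q p Λ A) := by
  classical
  rw [cyl_eq, measure_biUnion_finset]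
  · have h : ∀ S ∈ Λ.powerset.filter (· ∈ A), percMeasure ι p {ω : ι → Bool | opn Λ ω = S} =
        ENNReal.ofReal (wt p Λ S) := by
      intro S hS
      simp only [Finset.mem_filter, Finset.mem_powerset] at hS
      exact opn_prob p Λ S hS.1
    rw [Finset.sum_congr rfl h, ← ENNReal.ofReal_sum_of_nonneg]
    · unfold q
      rw [Finset.sum_filter]
    · intro S _
      exact wt_nonneg p.2.1 p.2.2 _ _
  · intro S _ T _ hST
    rw [Function.onFun, Set.disjoint_left]
    rintro ω h1 h2
    simp only [Set.mem_ofPred_eq] at h1 h2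
    exact hST (h1.symm.trans h2)
  · intro S hS
    simp only [Finset.mem_filter, Finset.mem_powerset] at hS
    exact opn_meas Λ S hS.1

end PMsec

/-! ### Tree events -/

section TreeSec

variable {V : Type}

/-- embedding of the binary tree of depth `n` -/
def Emb (H : SimpleGraph V) (n : ℕ) (f : List Bool → V) : Prop :=
  (∀ w : List Bool, w.length < n → ∀ b, H.Adj (f w) (f (b :: w))) ∧
    Set.InjOn f {w | w.length ≤ n}

theorem Emb.mono {H H' : SimpleGraph V} (h : H ≤ H') {n : ℕ} {f : List Bool → V}
    (hf : Emb H n f) : Emb H' n f := ⟨fun w hw b => h (hf.1 w hw b), hf.2⟩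

theorem Emb.le {H : SimpleGraph V} {n m : ℕ} (h : m ≤ n) {f : List Bool → V}
    (hf : Emb H n f) : Emb H m f :=
  ⟨fun w hw b => hf.1 w (by omega) b, hf.2.mono (fun w (hw : w.length ≤ m) => by
    show w.length ≤ n
    omega)⟩

/-- rooted event of depth `n` -/
def Ev (G : SimpleGraph V) (n : ℕ) (v : V) : Set (G.edgeSet → Bool) :=
  {ω | ∃ f : List Bool → V, f [] = v ∧ Emb (openGraph G ω) n f}

/-- the corresponding set family -/
def fam (G : SimpleGraph V) (n : ℕ) (v : V) : Set (Finset G.edgeSet) :=
  {S | ∃ f : List Bool → V, f [] = v ∧ ∃ hf : Emb G n f, ∀ w b (hw : w.length < n),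
    (⟨s(f w, f (b :: w)), hf.1 w hw b⟩ : G.edgeSet) ∈ S}

theorem fam_up (G : SimpleGraph V) (n : ℕ) (v : V) : Up (fam G n v) := by
  rintro S T hST ⟨f, h1, h2, h3⟩
  exact ⟨f, h1, h2, fun w b hw => hST (h3 w b hw)⟩

/-- `Λ` contains all edges that an embedded tree of depth `n` at `v` may use -/
def Good (G : SimpleGraph V) (n : ℕ) (v : V) (Λ : Finset G.edgeSet) : Prop :=
  ∀ f : List Bool → V, f [] = v → ∀ hf : Emb G n f, ∀ w b (hw : w.length < n),
    (⟨s(f w, f (b :: w)), hf.1 w hw b⟩ : G.edgeSet) ∈ Λ

theorem Good.mono {G : SimpleGraph V} {n : ℕ} {v : V} {Λ Λ' : Finset G.edgeSet}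
    (h : Good G n v Λ) (hL : Λ ⊆ Λ') : Good G n v Λ' :=
  fun f hf hE w b hw => hL (h f hf hE w b hw)

theorem openGraph_le (G : SimpleGraph V) (ω : G.edgeSet → Bool) : openGraph G ω ≤ G := by
  rintro u v ⟨h, _⟩; exact h

theorem Ev_eq {G : SimpleGraph V} {n : ℕ} {v : V} {Λ : Finset G.edgeSet} (h : Good G n v Λ) :
    Ev G n v = {ω | opn Λ ω ∈ fam G n v} := by
  ext ω
  constructor
  · rintro ⟨f, h1, h2⟩
    refine ⟨f, h1, h2.mono (openGraph_le G ω), fun w b hw => ?_⟩
    simp only [opn, Finset.mem_filter]
    refine ⟨h f h1 (h2.mono (openGraph_le G ω)) w b hw, ?_⟩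
    obtain ⟨_, ho⟩ := h2.1 w hw b
    exact ho
  · rintro ⟨f, h1, h2, h3⟩
    refine ⟨f, h1, fun w hw b => ?_, h2.2⟩
    have := h3 w b hw
    simp only [opn, Finset.mem_filter] at this
    exact ⟨h2.1 w hw b, this.2⟩

/-- vertices reachable in at most `n` steps -/
noncomputable def rch (G : SimpleGraph V) [G.LocallyFinite] [DecidableEq V] (v : V) : ℕ → Finset V
  | 0 => {v}
  | n + 1 => (rch G v n).biUnion (fun x => insert x (G.neighborFinset x))

theorem rch_mono (G : SimpleGraph V) [G.LocallyFinite] [DecidableEq V] (v : V) (n : ℕ) :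
    rch G v n ⊆ rch G v (n + 1) := by
  intro x hx
  rw [rch, Finset.mem_biUnion]
  exact ⟨x, hx, Finset.mem_insert_self _ _⟩

theorem mem_rch_self (G : SimpleGraph V) [G.LocallyFinite] [DecidableEq V] (v : V) (n : ℕ) :
    v ∈ rch G v n := by
  induction n with
  | zero => simp [rch]
  | succ n ih => exact rch_mono G v n ih

theorem mem_rch (G : SimpleGraph V) [G.LocallyFinite] [DecidableEq V] {v : V} {n : ℕ}
    {f : List Bool → V} (h0 : f [] = v) (hf : Emb G n f) (w : List Bool) (hw : w.length ≤ n) :
    f w ∈ rch G v w.length := by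
  induction w with
  | nil => simp [rch, h0]
  | cons b w ih =>
    rw [List.length_cons] at hw ⊢
    rw [rch, Finset.mem_biUnion]
    refine ⟨f w, ih (by omega), Finset.mem_insert_of_mem ?_⟩
    rw [SimpleGraph.mem_neighborFinset]
    exact hf.1 w (by omega) b

theorem rch_mono' (G : SimpleGraph V) [G.LocallyFinite] [DecidableEq V] (v : V) {m n : ℕ}
    (h : m ≤ n) : rch G v m ⊆ rch G v n := by
  induction h with
  | refl => exact Finset.Subset.refl _
  | step _ ih => exact ih.trans (rch_mono G v _)

theorem exists_good (G : SimpleGraph V) [G.LocallyFinite] (n : ℕ) (v : V) :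
    ∃ Λ : Finset G.edgeSet, Good G n v Λ := by
  classical
  set E0 : Finset (Sym2 V) := (rch G v n).biUnion (fun x => (G.neighborFinset x).image
    (fun y => s(x, y))) with hE0
  have hfin : {e : G.edgeSet | e.1 ∈ E0}.Finite :=
    Set.Finite.preimage (Subtype.val_injective.injOn) (Finset.finite_toSet E0)
  refine ⟨hfin.toFinset, ?_⟩
  intro f h0 hf w b hw
  rw [Set.Finite.mem_toFinset]
  simp only [Set.mem_ofPred_eq, hE0, Finset.mem_biUnion, Finset.mem_image]
  exact ⟨f w, rch_mono' G v (le_of_lt hw) (mem_rch G h0 hf w hw.le), f (b :: w), by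
    rw [SimpleGraph.mem_neighborFinset]; exact hf.1 w hw b, rfl⟩

theorem Ev_meas (G : SimpleGraph V) [G.LocallyFinite] (n : ℕ) (v : V) :
    MeasurableSet (Ev G n v) := by
  classical
  obtain ⟨Λ, h⟩ := exists_good G n v
  rw [Ev_eq h]; exact cyl_meas _ _

theorem fam_succ (G : SimpleGraph V) [G.LocallyFinite] (n : ℕ) (v : V) :
    fam G (n + 1) v ⊆ ⋃ xy ∈ (G.neighborFinset v) ×ˢ (G.neighborFinset v),
      box (fam G n xy.1) (fam G n xy.2) := by
  classical
  rintro S ⟨f, h0, hf, hS⟩
  simp only [Set.mem_iUnion, Finset.mem_product, SimpleGraph.mem_neighborFinset]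
  have hadj : ∀ b, G.Adj v (f [b]) := by
    intro b; have := hf.1 [] (by simp) b; rwa [h0] at this
  -- the two subtrees
  have hsub : ∀ c : Bool, Emb G n (fun w => f (w ++ [c])) := by
    intro c
    refine ⟨fun w hw b => ?_, ?_⟩
    · exact hf.1 (w ++ [c]) (by simp; omega) b
    · intro w hw w' hw' h
      simp only [Set.mem_ofPred_eq] at hw hw'
      have := hf.2 (by simp; omega) (by simp; omega) h
      exact List.append_cancel_right this
  set sb : Bool → Finset G.edgeSet := fun c => S.filter (fun e => ∃ w : List Bool, ∃ b : Bool,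
    w.length < n ∧ e.1 = s(f (w ++ [c]), f (b :: w ++ [c]))) with hsb
  have hmem : ∀ c, sb c ∈ fam G n (f [c]) := by
    intro c
    refine ⟨fun w => f (w ++ [c]), rfl, hsub c, fun w b hw => ?_⟩
    simp only [hsb, Finset.mem_filter]
    exact ⟨hS (w ++ [c]) b (by simp; omega), w, b, hw, rfl⟩
  refine ⟨(f [true], f [false]), ⟨hadj true, hadj false⟩, sb true, sb false, ?_,
    Finset.filter_subset _ _, Finset.filter_subset _ _, hmem true, hmem false⟩
  rw [Finset.disjoint_left]
  intro e he he'
  simp only [hsb, Finset.mem_filter] at he he'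
  obtain ⟨-, w, b, hw, he⟩ := he
  obtain ⟨-, w', b', hw', he'⟩ := he'
  rw [he'] at he
  rw [Sym2.eq_iff] at he
  have key : ∀ u u' : List Bool, u.length ≤ n → u'.length ≤ n →
      f (u ++ [false]) = f (u' ++ [true]) → False := by
    intro u u' hu hu' h
    have := hf.2 (by simp; omega) (by simp; omega) h
    have h2 := List.append_inj_right' this (by simp)
    simp at h2
  rcases he with ⟨h1, _⟩ | ⟨h1, _⟩
  · exact key w' w hw'.le hw.le h1
  · exact key w' (b :: w) hw'.le (by simp; omega) h1

theorem Ev_succ_le (G : SimpleGraph V) [G.LocallyFinite] (p : unitInterval) (n : ℕ) (v : V)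
    (t : ℝ) (ht0 : 0 ≤ t) (ht : ∀ x, G.Adj v x → (percMeasure G.edgeSet p).real (Ev G n x) ≤ t) :
    (percMeasure G.edgeSet p).real (Ev G (n + 1) v) ≤ (G.degree v : ℝ) ^ 2 * t ^ 2 := by
  classical
  have h0 := p.2.1
  have h1 := p.2.2
  choose L hL using exists_good G n
  obtain ⟨Λ0, hΛ0⟩ := exists_good G (n + 1) v
  set Λ := Λ0 ∪ (G.neighborFinset v).biUnion L with hΛ
  have hg : Good G (n + 1) v Λ := hΛ0.mono Finset.subset_union_left
  have hgx : ∀ x, G.Adj v x → Good G n x Λ := by
    intro x hx
    apply (hL x).mono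
    refine Finset.Subset.trans ?_ Finset.subset_union_right
    exact Finset.subset_biUnion_of_mem L (by rwa [SimpleGraph.mem_neighborFinset])
  have hqx : ∀ x, G.Adj v x → q p Λ (fam G n x) ≤ t := by
    intro x hx
    have := ht x hx
    rw [Ev_eq (hgx x hx), measureReal_def, cyl_prob, ENNReal.toReal_ofReal (q_nonneg h0 h1 _ _)]
      at this
    exact this
  rw [Ev_eq hg, measureReal_def, cyl_prob, ENNReal.toReal_ofReal (q_nonneg h0 h1 _ _)]
  calc q p Λ (fam G (n + 1) v) ≤ q p Λ (⋃ xy ∈ (G.neighborFinset v) ×ˢ (G.neighborFinset v),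
        box (fam G n xy.1) (fam G n xy.2)) := q_mono h0 h1 _ (fam_succ G n v)
    _ ≤ ∑ xy ∈ (G.neighborFinset v) ×ˢ (G.neighborFinset v),
        q p Λ (box (fam G n xy.1) (fam G n xy.2)) := q_iUnion_le h0 h1 _ _ _
    _ ≤ ∑ xy ∈ (G.neighborFinset v) ×ˢ (G.neighborFinset v), t ^ 2 := by
        apply Finset.sum_le_sum
        intro xy hxy
        simp only [Finset.mem_product, SimpleGraph.mem_neighborFinset] at hxy
        refine (bk h0 h1 Λ _ _ (fam_up G n _) (fam_up G n _)).trans ?_
        rw [sq]
        exact mul_le_mul (hqx _ hxy.1) (hqx _ hxy.2) (q_nonneg h0 h1 _ _) ht0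
    _ = (G.degree v : ℝ) ^ 2 * t ^ 2 := by
        rw [Finset.sum_const, Finset.card_product, SimpleGraph.card_neighborFinset_eq_degree]
        simp [sq]

/-- rooted infinite event -/
def Einf (G : SimpleGraph V) (v : V) : Set (G.edgeSet → Bool) :=
  {ω | ∃ f : List Bool → V, f [] = v ∧ Function.Injective f ∧
    ∀ w b, (openGraph G ω).Adj (f w) (f (b :: w))}

theorem T2_adj (w : List Bool) (b : Bool) : T2.Adj w (b :: w) := by
  unfold T2
  rw [SimpleGraph.fromRel_adj]
  refine ⟨?_, Or.inl ⟨b, rfl⟩⟩
  intro h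
  have := congrArg List.length h
  simp at this

theorem treeEvent_eq (G : SimpleGraph V) : treeEvent G = ⋃ v, Einf G v := by
  ext ω
  simp only [Set.mem_iUnion]
  constructor
  · rintro ⟨C, ⟨φ⟩⟩
    refine ⟨(φ []).1, fun w => (φ w).1, rfl, ?_, ?_⟩
    · intro a b hab
      exact φ.injective (Subtype.ext hab)
    · intro w b
      have := φ.toHom.map_adj (T2_adj w b)
      exact this
  · rintro ⟨v, f, h0, hinj, hadj⟩
    have hreach : ∀ w, (openGraph G ω).Reachable v (f w) := by
      intro w
      induction w with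
      | nil => rw [h0]
      | cons b w ih => exact ih.trans (hadj w b).reachable
    refine ⟨(openGraph G ω).connectedComponentMk v, ⟨⟨⟨fun w => ⟨f w, ?_⟩, ?_⟩, ?_⟩⟩⟩
    · change f w ∈ ((openGraph G ω).connectedComponentMk v).supp
      rw [SimpleGraph.ConnectedComponent.mem_supp_iff, SimpleGraph.ConnectedComponent.eq]
      exact (hreach w).symm
    · intro w w' h
      unfold T2 at h
      rw [SimpleGraph.fromRel_adj] at h
      rcases h.2 with ⟨b, rfl⟩ | ⟨b, rfl⟩
      · exact hadj w b
      · exact (hadj w' b).symm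
    · intro a b hab
      exact hinj (congrArg Subtype.val hab)

theorem Ev_anti (G : SimpleGraph V) (v : V) {m n : ℕ} (h : m ≤ n) : Ev G n v ⊆ Ev G m v := by
  rintro ω ⟨f, h0, hf⟩
  exact ⟨f, h0, hf.le h⟩

/-- compactness -/
theorem Einf_eq (G : SimpleGraph V) [G.LocallyFinite] (v : V) : Einf G v = ⋂ n, Ev G n v := by
  classical
  ext ω
  simp only [Set.mem_iInter]
  constructor
  · rintro ⟨f, h0, hinj, hadj⟩ n
    exact ⟨f, h0, fun w _ b => hadj w b, hinj.injOn⟩
  · intro h
    let _ : TopologicalSpace V := ⊥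
    have : DiscreteTopology V := ⟨rfl⟩
    set C : ℕ → Set (List Bool → V) := fun n =>
      {f | (∀ w, f w ∈ rch G v w.length) ∧ f [] = v ∧ Emb (openGraph G ω) n f} with hC
    have hcl : ∀ n, IsClosed (C n) := by
      intro n
      have e : C n = (⋂ w, {f | f w ∈ rch G v w.length}) ∩ ({f | f [] = v} ∩
          ((⋂ w : List Bool, ⋂ (_ : w.length < n), ⋂ b : Bool,
            {f | (openGraph G ω).Adj (f w) (f (b :: w))}) ∩
          (⋂ w : List Bool, ⋂ w' : List Bool, ⋂ (_ : w.length ≤ n), ⋂ (_ : w'.length ≤ n),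
            ⋂ (_ : w ≠ w'), {f : List Bool → V | f w ≠ f w'}))) := by
        ext f
        simp only [hC, Emb, Set.mem_ofPred_eq, Set.mem_inter_iff, Set.mem_iInter, Set.InjOn]
        constructor
        · rintro ⟨h1, h2, h3, h4⟩
          exact ⟨h1, h2, h3, fun w w' hw hw' hne heq => hne (h4 hw hw' heq)⟩
        · rintro ⟨h1, h2, h3, h4⟩
          refine ⟨h1, h2, h3, fun w hw w' hw' heq => ?_⟩
          by_contra hne
          exact h4 w w' hw hw' hne heq
      rw [e]
      refine (isClosed_iInter fun w => ?_).inter (IsClosed.inter ?_ (IsClosed.inter ?_ ?_))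
      · exact IsClosed.preimage (f := fun f : List Bool → V => f w) (continuous_apply w)
          (isClosed_discrete (rch G v w.length : Set V))
      · exact IsClosed.preimage (f := fun f : List Bool → V => f []) (continuous_apply [])
          (isClosed_discrete ({v} : Set V))
      · refine isClosed_iInter fun w => isClosed_iInter fun _ => isClosed_iInter fun b => ?_
        exact IsClosed.preimage (f := fun f : List Bool → V => (f w, f (b :: w)))
          ((continuous_apply w).prodMk (continuous_apply (b :: w)))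
          (isClosed_discrete {x : V × V | (openGraph G ω).Adj x.1 x.2})
      · refine isClosed_iInter fun w => isClosed_iInter fun w' => isClosed_iInter fun _ =>
          isClosed_iInter fun _ => isClosed_iInter fun _ => ?_
        exact IsClosed.preimage (f := fun f : List Bool → V => (f w, f w'))
          ((continuous_apply w).prodMk (continuous_apply w'))
          (isClosed_discrete {x : V × V | x.1 ≠ x.2})
    have hcomp : IsCompact (C 0) := by
      apply IsCompact.of_isClosed_subset (isCompact_univ_pi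
        (s := fun w : List Bool => (rch G v w.length : Set V))
        (fun w => (Finset.finite_toSet _).isCompact)) (hcl 0)
      intro f hf w _
      exact hf.1 w
    have hne : ∀ n, (C n).Nonempty := by
      intro n
      obtain ⟨f, h0, hf⟩ := h n
      refine ⟨fun w => if w.length ≤ n then f w else v, ?_, ?_, ?_, ?_⟩
      · intro w
        by_cases hw : w.length ≤ n
        · simp only [hw, if_true]
          exact mem_rch G h0 (hf.mono (openGraph_le G ω)) w hw
        · simp only [hw, if_false]
          exact mem_rch_self G v _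
      · simp [h0]
      · intro w hw b
        have h1 : w.length ≤ n := hw.le
        have h2 : (b :: w).length ≤ n := by simp; omega
        simp only [h1, h2, if_true]
        exact hf.1 w hw b
      · intro w hw w' hw' heq
        simp only [Set.mem_ofPred_eq] at hw hw'
        simp only [hw, hw', if_true] at heq
        exact hf.2 hw hw' heq
    have hnest : ∀ n, C (n + 1) ⊆ C n := by
      rintro n f ⟨h1, h2, h3⟩
      exact ⟨h1, h2, h3.le (Nat.le_succ n)⟩
    obtain ⟨f, hf⟩ := IsCompact.nonempty_iInter_of_sequence_nonempty_isCompact_isClosed C hnest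
      hne hcomp hcl
    simp only [Set.mem_iInter] at hf
    refine ⟨f, (hf 0).2.1, ?_, ?_⟩
    · intro w w' heq
      exact (hf (max w.length w'.length)).2.2.2
        (show w.length ≤ max w.length w'.length from le_max_left _ _)
        (show w'.length ≤ max w.length w'.length from le_max_right _ _) heq
    · intro w b
      exact (hf (w.length + 1)).2.2.1 w (Nat.lt_succ_self _) b

theorem Einf_meas (G : SimpleGraph V) [G.LocallyFinite] (v : V) : MeasurableSet (Einf G v) := by
  rw [Einf_eq]; exact MeasurableSet.iInter (fun n => Ev_meas G n v)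

theorem Ev_continuous (G : SimpleGraph V) [G.LocallyFinite] (n : ℕ) (v : V) :
    Continuous (fun p : unitInterval => (percMeasure G.edgeSet p).real (Ev G n v)) := by
  classical
  obtain ⟨Λ, h⟩ := exists_good G n v
  have e : (fun p : unitInterval => (percMeasure G.edgeSet p).real (Ev G n v)) =
      fun p : unitInterval => q (p : ℝ) Λ (fam G n v) := by
    ext p
    rw [Ev_eq h, measureReal_def, cyl_prob, ENNReal.toReal_ofReal (q_nonneg p.2.1 p.2.2 _ _)]
  rw [e]
  exact (q_continuous Λ (fam G n v)).comp continuous_subtype_val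

/-- lower bound passes to the limit -/
theorem Einf_ge (G : SimpleGraph V) [G.LocallyFinite] (v : V) (p : unitInterval) (c : ℝ)
    (h : ∀ n, c ≤ (percMeasure G.edgeSet p).real (Ev G n v)) : c ≤ (percMeasure G.edgeSet p).real (Einf G v) := by
  rw [Einf_eq]
  have ht := tendsto_measure_iInter_atTop (μ := percMeasure G.edgeSet p) (s := fun n => Ev G n v)
    (fun n => (Ev_meas G n v).nullMeasurableSet) (fun m n hmn => Ev_anti G v hmn)
    ⟨0, measure_ne_top _ _⟩
  have ht2 := (ENNReal.tendsto_toReal (measure_ne_top _ _)).comp ht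
  exact ge_of_tendsto ht2 (Filter.Eventually.of_forall h)

/-- invariance under automorphisms -/
theorem Ev_aut (G : SimpleGraph V) (φ : G ≃g G) (p : unitInterval) (n : ℕ) (v : V) :
    (percMeasure G.edgeSet p).real (Ev G n (φ v)) = (percMeasure G.edgeSet p).real (Ev G n v) := by
  set e : G.edgeSet ≃ G.edgeSet := φ.mapEdgeSet with he
  have hmap : (percMeasure G.edgeSet p).map (MeasurableEquiv.piCongrLeft (fun _ : G.edgeSet => Bool) e) =
      percMeasure G.edgeSet p := by
    unfold percMeasure
    exact Measure.infinitePi_map_piCongrLeft (μ := fun _ : G.edgeSet => bernoulliMeasure true false p) e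
  have hset : (MeasurableEquiv.piCongrLeft (fun _ : G.edgeSet => Bool) e) ⁻¹' (Ev G n (φ v)) =
      Ev G n v := by
    have hval : ∀ (ω : G.edgeSet → Bool) (u w : V) (h : G.Adj u w),
        (MeasurableEquiv.piCongrLeft (fun _ : G.edgeSet => Bool) e) ω
          ⟨s(φ u, φ w), φ.map_adj_iff.2 h⟩ = ω ⟨s(u, w), h⟩ := by
      intro ω u w h
      have : (⟨s(φ u, φ w), φ.map_adj_iff.2 h⟩ : G.edgeSet) = e ⟨s(u, w), h⟩ := by
        apply Subtype.ext
        simp [he]
      rw [this]
      exact Equiv.piCongrLeft_apply_apply (P := fun _ : G.edgeSet => Bool) e ω _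
    ext ω
    simp only [Set.mem_preimage]
    constructor
    · rintro ⟨f, h0, hf1, hf2⟩
      refine ⟨fun w => φ.symm (f w), by simp [h0], ?_, ?_⟩
      · intro w hw b
        obtain ⟨h1, h2⟩ := hf1 w hw b
        have h3 : G.Adj (φ.symm (f w)) (φ.symm (f (b :: w))) := φ.symm.map_adj_iff.2 h1
        refine ⟨h3, ?_⟩
        rw [← hval ω _ _ h3, ← h2]
        exact congrArg _ (Subtype.ext (by simp))
      · intro w hw w' hw' heq
        exact hf2 hw hw' (φ.symm.injective heq)
    · rintro ⟨f, h0, hf1, hf2⟩
      refine ⟨fun w => φ (f w), by simp [h0], ?_, ?_⟩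
      · intro w hw b
        obtain ⟨h1, h2⟩ := hf1 w hw b
        refine ⟨φ.map_adj_iff.2 h1, ?_⟩
        rw [← h2]
        exact hval ω _ _ h1
      · intro w hw w' hw' heq
        exact hf2 hw hw' (φ.injective heq)
  rw [measureReal_def, measureReal_def]
  congr 1
  conv_lhs => rw [← hmap]
  rw [MeasurableEquiv.map_apply, hset]

theorem jump (G : SimpleGraph V) [Countable V] [G.LocallyFinite] (k : ℕ)
    (hk : ∀ v, G.degree v ≤ k) (htrans : ∀ v w, ∃ φ : G ≃g G, φ v = w) (p : unitInterval)
    (hp : percMeasure G.edgeSet p (treeEvent G) ≠ 0) (n : ℕ) (v : V) :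
    1 / (k : ℝ) ^ 2 ≤ (percMeasure G.edgeSet p).real (Ev G n v) := by
  have h1 : ∃ v0, percMeasure G.edgeSet p (Einf G v0) ≠ 0 := by
    by_contra hcon
    push Not at hcon
    apply hp
    rw [treeEvent_eq]
    exact measure_iUnion_null hcon
  obtain ⟨v0, hv0⟩ := h1
  have hsame : ∀ m w, (percMeasure G.edgeSet p).real (Ev G m w) = (percMeasure G.edgeSet p).real (Ev G m v0) := by
    intro m w
    obtain ⟨φ, hφ⟩ := htrans v0 w
    rw [← hφ, Ev_aut]
  set s : ℕ → ℝ := fun m => (percMeasure G.edgeSet p).real (Ev G m v0) with hs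
  have hr : 0 < (percMeasure G.edgeSet p).real (Einf G v0) := by
    rw [measureReal_def]
    exact ENNReal.toReal_pos hv0 (measure_ne_top _ _)
  have hsr : ∀ m, (percMeasure G.edgeSet p).real (Einf G v0) ≤ s m := by
    intro m
    refine measureReal_mono ?_ (measure_ne_top _ _)
    rw [Einf_eq]
    exact Set.iInter_subset _ m
  have hs0 : ∀ m, 0 ≤ s m := fun m => measureReal_nonneg
  have hsucc : ∀ m, s (m + 1) ≤ (k : ℝ) ^ 2 * s m ^ 2 := by
    intro m
    refine (Ev_succ_le G p m v0 (s m) (hs0 m) (fun x _ => (hsame m x).le)).trans ?_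
    have : (G.degree v0 : ℝ) ^ 2 ≤ (k : ℝ) ^ 2 := by
      have := hk v0
      gcongr
    exact mul_le_mul_of_nonneg_right this (sq_nonneg _)
  have hanti : ∀ m j, s (m + j) ≤ s m := by
    intro m j
    exact measureReal_mono (Ev_anti G v0 (Nat.le_add_right m j))
  rw [hsame n v]
  by_contra hlt
  push Not at hlt
  change s n < 1 / (k : ℝ) ^ 2 at hlt
  set ρ : ℝ := (k : ℝ) ^ 2 * s n with hρ
  have hρ0 : 0 ≤ ρ := mul_nonneg (sq_nonneg _) (hs0 n)
  have hρ1 : ρ < 1 := by
    rcases Nat.eq_zero_or_pos k with hk0 | hk0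
    · rw [hρ, hk0]; simp
    · have hk2 : (0 : ℝ) < (k : ℝ) ^ 2 := by positivity
      rw [lt_div_iff₀ hk2] at hlt
      rw [hρ, mul_comm]; exact hlt
  have hdec : ∀ j, s (n + j) ≤ s n * ρ ^ j := by
    intro j
    induction j with
    | zero => simp
    | succ j ih =>
      have a1 := hsucc (n + j)
      have a2 : (k : ℝ) ^ 2 * s (n + j) ≤ ρ :=
        mul_le_mul_of_nonneg_left (hanti n j) (sq_nonneg _)
      calc s (n + (j + 1)) ≤ (k : ℝ) ^ 2 * s (n + j) ^ 2 := a1
        _ = ((k : ℝ) ^ 2 * s (n + j)) * s (n + j) := by ring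
        _ ≤ ρ * (s n * ρ ^ j) := mul_le_mul a2 ih (hs0 _) hρ0
        _ = s n * ρ ^ (j + 1) := by ring
  have hlim : Filter.Tendsto (fun j => s n * ρ ^ j) Filter.atTop (nhds (s n * 0)) :=
    (tendsto_pow_atTop_nhds_zero_of_lt_one hρ0 hρ1).const_mul _
  rw [mul_zero] at hlim
  have : (percMeasure G.edgeSet p).real (Einf G v0) ≤ 0 :=
    ge_of_tendsto' hlim (fun j => (hsr (n + j)).trans (hdec j))
  linarith

/-- General theorem: on a locally finite vertex-transitive countable graph for which the
critical value is defined by a non-empty set, the transition is first-order. -/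
theorem main_general (G : SimpleGraph V) [Countable V] [G.LocallyFinite] (k : ℕ)
    (hk : ∀ v, G.degree v ≤ k) (htrans : ∀ v w, ∃ φ : G ≃g G, φ v = w)
    (hne : {p : unitInterval | percMeasure G.edgeSet p (treeEvent G) = 1}.Nonempty) (v : V) :
    1 / (k : ℝ) ^ 2 ≤ (percMeasure G.edgeSet (pbt G)).real (Einf G v) := by
  apply Einf_ge
  intro n
  have hcl : IsClosed {p : unitInterval | 1 / (k : ℝ) ^ 2 ≤ (percMeasure G.edgeSet p).real (Ev G n v)} :=
    isClosed_le continuous_const (Ev_continuous G n v)
  have hsub : {p : unitInterval | percMeasure G.edgeSet p (treeEvent G) = 1} ⊆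
      {p : unitInterval | 1 / (k : ℝ) ^ 2 ≤ (percMeasure G.edgeSet p).real (Ev G n v)} := by
    intro p hp
    apply jump G k hk htrans p
    simp only [Set.mem_ofPred_eq] at hp
    rw [hp]; exact one_ne_zero
  have hmem : pbt G ∈ closure {p : unitInterval | percMeasure G.edgeSet p (treeEvent G) = 1} :=
    csInf_mem_closure hne (OrderBot.bddBelow _)
  exact closure_minimal hsub hcl hmem

end TreeSec

theorem percMeasure_one {V : Type} (G : SimpleGraph V) :
    percMeasure G.edgeSet 1 = Measure.dirac (fun _ => true) := by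
  unfold percMeasure
  simp only [bernoulliMeasure_one]
  exact Measure.infinitePi_dirac _

/-! ### An explicit layered model with an action of the von Dyck group -/

namespace Lay

/-- number of owned children of a vertex of the layered triangulation -/
def mm (k : ℕ) : List ℕ → ℕ
  | [] => k
  | [_] => k - 4
  | i :: _ :: _ => if i = 0 then k - 5 else k - 4

/-- valid codes -/
def Val (k : ℕ) : List ℕ → Prop
  | [] => True
  | i :: l => i < mm k l ∧ Val k l

/-- right neighbour in the same layer -/
def sc (k : ℕ) : List ℕ → List ℕ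
  | [] => []
  | [i] => if i + 1 < k then [i + 1] else [0]
  | i :: j :: l => if i + 1 < mm k (j :: l) then (i + 1) :: j :: l else 0 :: sc k (j :: l)

/-- left neighbour in the same layer -/
def pd (k : ℕ) : List ℕ → List ℕ
  | [] => []
  | [i] => if i = 0 then [k - 1] else [i - 1]
  | i :: j :: l => if i = 0 then (mm k (pd k (j :: l)) - 1) :: pd k (j :: l) else (i - 1) :: j :: l

variable {k : ℕ}

theorem mm_cons {i : ℕ} {l : List ℕ} (h : l ≠ []) :
    mm k (i :: l) = if i = 0 then k - 5 else k - 4 := by
  cases l with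
  | nil => exact absurd rfl h
  | cons j l => rfl

theorem sc_cons {i : ℕ} {l : List ℕ} (h : l ≠ []) :
    sc k (i :: l) = if i + 1 < mm k l then (i + 1) :: l else 0 :: sc k l := by
  cases l with
  | nil => exact absurd rfl h
  | cons j l => rfl

theorem pd_cons {i : ℕ} {l : List ℕ} (h : l ≠ []) :
    pd k (i :: l) = if i = 0 then (mm k (pd k l) - 1) :: pd k l else (i - 1) :: l := by
  cases l with
  | nil => exact absurd rfl h
  | cons j l => rfl

theorem sc_ne {l : List ℕ} (h : l ≠ []) : sc k l ≠ [] := by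
  cases l with
  | nil => exact absurd rfl h
  | cons i l =>
    cases l with
    | nil => simp only [sc]; split_ifs <;> simp
    | cons j l => simp only [sc]; split_ifs <;> simp

theorem pd_ne {l : List ℕ} (h : l ≠ []) : pd k l ≠ [] := by
  cases l with
  | nil => exact absurd rfl h
  | cons i l =>
    cases l with
    | nil => simp only [pd]; split_ifs <;> simp
    | cons j l => simp only [pd]; split_ifs <;> simp

theorem mm_cases {l : List ℕ} (h : l ≠ []) : mm k l = k - 4 ∨ mm k l = k - 5 := by
  cases l with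
  | nil => exact absurd rfl h
  | cons i l =>
    cases l with
    | nil => left; rfl
    | cons j l => simp only [mm]; split_ifs <;> simp

theorem mm_ge (hk : 7 ≤ k) (l : List ℕ) : 2 ≤ mm k l := by
  by_cases h : l = []
  · subst h; simp only [mm]; omega
  · rcases mm_cases (k := k) h with h | h <;> omega

theorem sc_val (hk : 7 ≤ k) : ∀ l : List ℕ, Val k l → Val k (sc k l) := by
  intro l
  induction l with
  | nil => intro _; trivial
  | cons i l ih =>
    intro h
    cases l with
    | nil =>
      simp only [sc]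
      have := h.1
      simp only [mm] at this
      split_ifs with hi
      · exact ⟨by simpa [mm] using hi, trivial⟩
      · exact ⟨by simp only [mm]; omega, trivial⟩
    | cons j l =>
      rw [sc_cons (by simp)]
      split_ifs with hi
      · exact ⟨hi, h.2⟩
      · exact ⟨by have := mm_ge hk (sc k (j :: l)); omega, ih h.2⟩

theorem pd_val (hk : 7 ≤ k) : ∀ l : List ℕ, Val k l → Val k (pd k l) := by
  intro l
  induction l with
  | nil => intro _; trivial
  | cons i l ih =>
    intro h
    cases l with
    | nil =>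
      simp only [pd]
      have := h.1
      simp only [mm] at this
      split_ifs with hi
      · exact ⟨by simp only [mm]; omega, trivial⟩
      · exact ⟨by simp only [mm]; omega, trivial⟩
    | cons j l =>
      rw [pd_cons (by simp)]
      split_ifs with hi
      · exact ⟨by have := mm_ge hk (pd k (j :: l)); omega, ih h.2⟩
      · exact ⟨by have := h.1; omega, h.2⟩

theorem pd_sc (hk : 7 ≤ k) : ∀ l : List ℕ, Val k l → pd k (sc k l) = l := by
  intro l
  induction l with
  | nil => intro _; rfl
  | cons i l ih =>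
    intro h
    cases l with
    | nil =>
      have := h.1
      simp only [mm] at this
      simp only [sc]
      split_ifs with hi
      · simp [pd]
      · simp only [pd, if_true]
        have : k - 1 = i := by omega
        rw [this]
    | cons j l =>
      rw [sc_cons (by simp)]
      split_ifs with hi
      · rw [pd_cons (by simp)]; simp
      · rw [pd_cons (sc_ne (by simp)), if_pos rfl, ih h.2]
        have := h.1
        have : mm k (j :: l) - 1 = i := by omega
        rw [this]

theorem sc_pd (hk : 7 ≤ k) : ∀ l : List ℕ, Val k l → sc k (pd k l) = l := by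
  intro l
  induction l with
  | nil => intro _; rfl
  | cons i l ih =>
    intro h
    cases l with
    | nil =>
      have := h.1
      simp only [mm] at this
      simp only [pd]
      split_ifs with hi
      · simp only [sc]
        rw [if_neg (by omega), hi]
      · simp only [sc]
        rw [if_pos (by omega)]
        have : i - 1 + 1 = i := by omega
        rw [this]
    | cons j l =>
      rw [pd_cons (by simp)]
      split_ifs with hi
      · have := mm_ge hk (pd k (j :: l))
        rw [sc_cons (pd_ne (by simp)), if_neg (by omega), ih h.2, hi]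
      · have := h.1
        rw [sc_cons (by simp), if_pos (by omega)]
        have : i - 1 + 1 = i := by omega
        rw [this]

/-- rotation of darts -/
def R (k : ℕ) (d : List ℕ × ℕ) : List ℕ × ℕ := (d.1, if d.2 + 1 < k then d.2 + 1 else 0)

/-- reversal of darts -/
def T (k : ℕ) : List ℕ × ℕ → List ℕ × ℕ
  | ([], j) => ([(k - j) % k], 0)
  | (i :: l, j) =>
    if j = 0 then (if l = [] then ([], (k - i) % k) else (l, mm k l + 2 - i))
    else if j = 1 then (sc k (i :: l), mm k (sc k (i :: l)) + 3)
    else if j = 2 then (0 :: sc k (i :: l), k - 1)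
    else if j ≤ mm k (i :: l) + 2 then ((mm k (i :: l) + 2 - j) :: i :: l, 0)
    else if j = mm k (i :: l) + 3 then (pd k (i :: l), 1)
    else (pd k l, 2)

/-- valid darts -/
def DV (k : ℕ) (d : List ℕ × ℕ) : Prop := Val k d.1 ∧ d.2 < k

theorem T_nil (j : ℕ) : T k ([], j) = ([(k - j) % k], 0) := rfl

theorem T_P0 (i : ℕ) : T k ([i], 0) = ([], (k - i) % k) := by simp [T]

theorem T_P {i : ℕ} {l : List ℕ} (h : l ≠ []) : T k (i :: l, 0) = (l, mm k l + 2 - i) := by
  simp [T, h]

theorem T_R {l : List ℕ} (h : l ≠ []) : T k (l, 1) = (sc k l, mm k (sc k l) + 3) := by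
  cases l with
  | nil => exact absurd rfl h
  | cons i l => simp [T]

theorem T_G {l : List ℕ} (h : l ≠ []) : T k (l, 2) = (0 :: sc k l, k - 1) := by
  cases l with
  | nil => exact absurd rfl h
  | cons i l => simp [T]

theorem T_C {l : List ℕ} {j : ℕ} (h : l ≠ []) (h3 : 3 ≤ j) (hj : j ≤ mm k l + 2) :
    T k (l, j) = ((mm k l + 2 - j) :: l, 0) := by
  cases l with
  | nil => exact absurd rfl h
  | cons i l =>
    simp only [T]
    rw [if_neg (by omega), if_neg (by omega), if_neg (by omega), if_pos hj]

theorem T_L {l : List ℕ} (h : l ≠ []) : T k (l, mm k l + 3) = (pd k l, 1) := by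
  cases l with
  | nil => exact absurd rfl h
  | cons i l =>
    simp only [T]
    rw [if_neg (by omega), if_neg (by omega), if_neg (by omega), if_neg (by omega)]
    simp

theorem T_Q {i : ℕ} {l : List ℕ} : T k (i :: l, mm k (i :: l) + 4) = (pd k l, 2) := by
  simp only [T]
  rw [if_neg (by omega), if_neg (by omega), if_neg (by omega), if_neg (by omega),
    if_neg (by omega)]

theorem mm_le (hk : 7 ≤ k) {l : List ℕ} (h : l ≠ []) : mm k l + 4 ≤ k := by
  rcases mm_cases (k := k) h with h | h <;> omega

theorem mm_one (i : ℕ) : mm k [i] = k - 4 := rfl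

/-- classification of darts -/
theorem dart_cases (hk : 7 ≤ k) {l : List ℕ} {j : ℕ} (hl : l ≠ []) (hj : j < k) :
    j = 0 ∨ j = 1 ∨ j = 2 ∨ (3 ≤ j ∧ j ≤ mm k l + 2) ∨ j = mm k l + 3 ∨
      (j = mm k l + 4 ∧ mm k l + 5 = k ∧ ∃ l', l' ≠ [] ∧ l = 0 :: l') := by
  by_cases h5 : j ≤ mm k l + 3
  · omega
  · have h6 : mm k l + 4 ≤ k := mm_le hk hl
    right; right; right; right; right
    rcases mm_cases (k := k) hl with h | h
    · omega
    · refine ⟨by omega, by omega, ?_⟩
      cases l with
      | nil => exact absurd rfl hl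
      | cons i l =>
        cases l with
        | nil => rw [mm_one] at h; omega
        | cons j' l =>
          rw [mm_cons (by simp)] at h
          split_ifs at h with hi
          · exact ⟨j' :: l, by simp, by rw [hi]⟩
          · omega

theorem T_val (hk : 7 ≤ k) (d : List ℕ × ℕ) (hd : DV k d) : DV k (T k d) := by
  obtain ⟨l, j⟩ := d
  obtain ⟨h1, h2⟩ := hd
  simp only at h1 h2
  by_cases hl : l = []
  · subst hl
    exact ⟨⟨Nat.mod_lt _ (by omega), trivial⟩, by show 0 < k; omega⟩
  · have hsc := sc_val hk l h1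
    have hpd := pd_val hk l h1
    have hm := mm_ge hk l
    have hm' := mm_le hk hl
    rcases dart_cases hk hl h2 with h | h | h | h | h | h
    · subst h
      cases l with
      | nil => exact absurd rfl hl
      | cons i l =>
        by_cases hl' : l = []
        · subst hl'
          rw [T_P0]
          exact ⟨trivial, Nat.mod_lt _ (by omega)⟩
        · rw [T_P hl']
          have := mm_le hk hl'
          refine ⟨h1.2, ?_⟩
          show mm k l + 2 - i < k
          omega
    · subst h
      rw [T_R hl]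
      have := mm_le hk (sc_ne (k := k) hl)
      exact ⟨hsc, by show mm k (sc k l) + 3 < k; omega⟩
    · subst h
      rw [T_G hl]
      have := mm_ge hk (sc k l)
      exact ⟨⟨by omega, hsc⟩, by show k - 1 < k; omega⟩
    · rw [T_C hl h.1 h.2]
      exact ⟨⟨by omega, h1⟩, by show 0 < k; omega⟩
    · subst h
      rw [T_L hl]
      exact ⟨hpd, by show 1 < k; omega⟩
    · obtain ⟨h3, h4, l', hl', rfl⟩ := h
      subst h3
      rw [T_Q]
      exact ⟨pd_val hk l' h1.2, by show 2 < k; omega⟩

theorem mm_zero {l : List ℕ} (h : l ≠ []) : mm k (0 :: l) = k - 5 := by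
  rw [mm_cons h, if_pos rfl]

theorem TT (hk : 7 ≤ k) (d : List ℕ × ℕ) (hd : DV k d) : T k (T k d) = d := by
  obtain ⟨l, j⟩ := d
  obtain ⟨h1, h2⟩ := hd
  simp only at h1 h2
  by_cases hl : l = []
  · subst hl
    rw [T_nil, T_P0]
    congr 1
    rcases Nat.eq_zero_or_pos j with h | h
    · subst h; simp
    · rw [Nat.mod_eq_of_lt (show k - j < k by omega), Nat.mod_eq_of_lt (show k - (k - j) < k by omega)]
      omega
  · have hm := mm_ge hk l
    have hm' := mm_le hk hl
    rcases dart_cases hk hl h2 with h | h | h | h | h | h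
    · subst h
      cases l with
      | nil => exact absurd rfl hl
      | cons i l =>
        by_cases hl' : l = []
        · subst hl'
          have hi := h1.1
          simp only [mm] at hi
          rw [T_P0, T_nil]
          congr 2
          rcases Nat.eq_zero_or_pos i with h | h
          · subst h; simp
          · rw [Nat.mod_eq_of_lt (show k - i < k by omega),
              Nat.mod_eq_of_lt (show k - (k - i) < k by omega)]
            omega
        · rw [T_P hl', T_C hl' (by have := h1.1; omega) (by omega)]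
          congr 2
          have := h1.1
          omega
    · subst h
      rw [T_R hl, T_L (sc_ne hl), pd_sc hk l h1]
    · subst h
      rw [T_G hl]
      have : k - 1 = mm k (0 :: sc k l) + 4 := by
        rw [mm_zero (sc_ne hl)]; omega
      rw [this, T_Q, pd_sc hk l h1]
    · rw [T_C hl h.1 h.2, T_P hl]
      congr 1
      omega
    · subst h
      rw [T_L hl, T_R (pd_ne hl), sc_pd hk l h1]
    · obtain ⟨h3, h4, l', hl', rfl⟩ := h
      rw [h3, T_Q, T_G (pd_ne hl'), sc_pd hk l' h1.2]
      congr 1
      omega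

theorem R_val (hk : 7 ≤ k) (d : List ℕ × ℕ) (hd : DV k d) : DV k (R k d) := by
  refine ⟨hd.1, ?_⟩
  show (if d.2 + 1 < k then d.2 + 1 else 0) < k
  split_ifs <;> omega

theorem R_lt {l : List ℕ} {j : ℕ} (h : j + 1 < k) : R k (l, j) = (l, j + 1) := by
  simp [R, h]

theorem R_last (hk : 7 ≤ k) {l : List ℕ} {j : ℕ} (h : j + 1 = k) : R k (l, j) = (l, 0) := by
  simp [R]
  omega

/-- face permutation -/
def F (k : ℕ) (d : List ℕ × ℕ) : List ℕ × ℕ := R k (T k d)

theorem F_R (hk : 7 ≤ k) {l : List ℕ} (hl : l ≠ []) :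
    F k (l, 1) = if mm k (sc k l) + 4 < k then (sc k l, mm k (sc k l) + 4) else (sc k l, 0) := by
  unfold F
  rw [T_R hl]
  have := mm_le hk (sc_ne (k := k) hl)
  split_ifs with h
  · rw [R_lt (by omega)]
  · rw [R_last hk (by omega)]

theorem F_G (hk : 7 ≤ k) {l : List ℕ} (hl : l ≠ []) : F k (l, 2) = (0 :: sc k l, 0) := by
  unfold F
  rw [T_G hl, R_last hk (by omega)]

theorem F_C (hk : 7 ≤ k) {l : List ℕ} {j : ℕ} (hl : l ≠ []) (h3 : 3 ≤ j) (hj : j ≤ mm k l + 2) :
    F k (l, j) = ((mm k l + 2 - j) :: l, 1) := by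
  unfold F
  rw [T_C hl h3 hj, R_lt (by omega)]

theorem F_L (hk : 7 ≤ k) {l : List ℕ} (hl : l ≠ []) : F k (l, mm k l + 3) = (pd k l, 2) := by
  unfold F
  rw [T_L hl, R_lt (by omega)]

theorem F_Q (hk : 7 ≤ k) {i : ℕ} {l : List ℕ} : F k (i :: l, mm k (i :: l) + 4) = (pd k l, 3) := by
  unfold F
  rw [T_Q, R_lt (by omega)]

theorem FFF_P (hk : 7 ≤ k) {l : List ℕ} (hl : l ≠ []) (h1 : Val k l) :
    F k (F k (F k (l, 0))) = (l, 0) := by
  cases l with
  | nil => exact absurd rfl hl
  | cons i l =>
    by_cases hl' : l = []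
    · subst hl'
      have hi := h1.1
      simp only [mm] at hi
      have e1 : F k ([i], 0) = ([], if (k - i) % k + 1 < k then (k - i) % k + 1 else 0) := by
        unfold F; rw [T_P0]; rfl
      have e2 : F k ([], if (k - i) % k + 1 < k then (k - i) % k + 1 else 0) = (pd k [i], 1) := by
        unfold F
        rw [T_nil, R_lt (by omega)]
        congr 1
        simp only [pd]
        rcases Nat.eq_zero_or_pos i with h | h
        · subst h
          simp only [Nat.sub_zero, Nat.mod_self, if_true]
          rw [if_pos (by omega), Nat.mod_eq_of_lt (by omega)]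
        · rw [Nat.mod_eq_of_lt (show k - i < k by omega), if_neg (by omega : ¬ i = 0)]
          split_ifs with h'
          · rw [Nat.mod_eq_of_lt (by omega)]
            congr 1; omega
          · have : i = 1 := by omega
            subst this; simp
      rw [e1, e2, F_R hk (pd_ne (by simp)), sc_pd hk [i] h1, mm_one, if_neg (by omega)]
    · have hm := mm_le hk hl'
      have hm2 := mm_ge hk l
      have hi := h1.1
      rcases Nat.eq_zero_or_pos i with h | h
      · subst h
        have e1 : F k (0 :: l, 0) = (l, mm k l + 3) := by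
          unfold F; rw [T_P hl', R_lt (by omega)]; rfl
        rw [e1, F_L hk hl', F_G hk (pd_ne hl'), sc_pd hk l h1.2]
      · have e1 : F k (i :: l, 0) = (l, mm k l + 3 - i) := by
          unfold F; rw [T_P hl', R_lt (by omega)]; congr 1; omega
        rw [e1, F_C hk hl' (by omega) (by omega)]
        have e2 : mm k l + 2 - (mm k l + 3 - i) = i - 1 := by omega
        have e3 : sc k ((i - 1) :: l) = i :: l := by
          rw [sc_cons hl', if_pos (by omega)]; congr 1; omega
        have e4 : mm k (i :: l) = k - 4 := by rw [mm_cons hl', if_neg (by omega)]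
        rw [e2, F_R hk (by simp), e3, e4, if_neg (by omega)]

theorem FFF_Q (hk : 7 ≤ k) {l : List ℕ} (hl : l ≠ []) (h1 : Val k (0 :: l)) :
    F k (F k (F k (0 :: l, k - 1))) = (0 :: l, k - 1) := by
  have hm : mm k (0 :: l) = k - 5 := mm_zero hl
  have e : k - 1 = mm k (0 :: l) + 4 := by omega
  have hp := mm_ge hk (pd k l)
  have hp' := mm_le hk (pd_ne (k := k) hl)
  have e3 : sc k ((mm k (pd k l) + 2 - 3) :: pd k l) = 0 :: l := by
    rw [sc_cons (pd_ne hl), if_neg (by omega), sc_pd hk l h1.2]
  rw [e, F_Q hk, F_C hk (pd_ne hl) (by omega) (by omega), F_R hk (by simp), e3, if_pos (by omega)]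

theorem F_inj (hk : 7 ≤ k) {d d' : List ℕ × ℕ} (h : DV k d) (h' : DV k d')
    (he : F k d = F k d') : d = d' := by
  have hR : ∀ d d' : List ℕ × ℕ, d.2 < k → d'.2 < k → R k d = R k d' → d = d' := by
    rintro ⟨l, j⟩ ⟨l', j'⟩ h1 h2 h3
    simp only [R, Prod.mk.injEq] at h3
    simp only at h1 h2
    obtain ⟨h4, h5⟩ := h3
    subst h4
    congr 1
    split_ifs at h5 <;> omega
  have h1 := hR _ _ (T_val hk d h).2 (T_val hk d' h').2 he
  rw [← TT hk d h, ← TT hk d' h', h1]

theorem F_val (hk : 7 ≤ k) (d : List ℕ × ℕ) (hd : DV k d) : DV k (F k d) :=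
  R_val hk _ (T_val hk d hd)

theorem FFF (hk : 7 ≤ k) (d : List ℕ × ℕ) (hd : DV k d) : F k (F k (F k d)) = d := by
  -- reduce to a dart in the same face
  have red : ∀ d, DV k d → F k (F k (F k (F k d))) = F k d → F k (F k (F k d)) = d := by
    intro d hd h
    exact F_inj hk (F_val hk _ (F_val hk _ (F_val hk _ hd))) hd h
  have hRcase : ∀ l, l ≠ [] → Val k l → F k (F k (F k (l, 1))) = (l, 1) := by
    intro l hl h1
    apply red _ ⟨h1, by show 1 < k; omega⟩
    have hs := sc_val hk l h1
    rw [F_R hk hl]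
    split_ifs with h
    · -- type 2
      have hne := sc_ne (k := k) hl
      rcases dart_cases hk hne h with h' | h' | h' | h' | h' | ⟨_, h5, l', hl', he⟩
      · omega
      · omega
      · omega
      · omega
      · omega
      · rw [he] at hs h5 ⊢
        have e : mm k (0 :: l') + 4 = k - 1 := by omega
        rw [e]
        exact FFF_Q hk hl' hs
    · exact FFF_P hk (sc_ne hl) hs
  obtain ⟨l, j⟩ := d
  obtain ⟨h1, h2⟩ := hd
  simp only at h1 h2
  by_cases hl : l = []
  · subst hl
    apply red _ ⟨h1, h2⟩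
    have e : F k ([], j) = ([(k - j) % k], 1) := by
      unfold F; rw [T_nil, R_lt (by omega)]
    rw [e]
    exact hRcase _ (by simp) ⟨Nat.mod_lt _ (by omega), trivial⟩
  · rcases dart_cases hk hl h2 with h | h | h | h | h | ⟨h3, h4, l', hl', he⟩
    · subst h; exact FFF_P hk hl h1
    · subst h; exact hRcase l hl h1
    · subst h
      apply red _ ⟨h1, h2⟩
      rw [F_G hk hl]
      exact FFF_P hk (by simp) ⟨by have := mm_ge hk (sc k l); omega, sc_val hk l h1⟩
    · apply red _ ⟨h1, h2⟩
      rw [F_C hk hl h.1 h.2]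
      exact hRcase _ (by simp) ⟨by omega, h1⟩
    · subst h
      apply red _ ⟨h1, h2⟩
      apply red _ (F_val hk _ ⟨h1, h2⟩)
      rw [F_L hk hl, F_G hk (pd_ne hl), sc_pd hk l h1]
      exact FFF_P hk (by simp) ⟨by have := mm_ge hk l; omega, h1⟩
    · subst he
      have e : j = k - 1 := by omega
      rw [e]
      exact FFF_Q hk hl' h1

end Lay

/-! ### The graph `H k` -/

section HKsec

variable {k : ℕ}

theorem sg_pow : sg k ^ k = 1 := by
  have : (PresentedGroup.mk (rels k)) (FreeGroup.of false ^ k) = 1 :=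
    PresentedGroup.one_of_mem (by simp [rels])
  rw [map_pow] at this
  exact this

theorem ta_sq : ta k * ta k = 1 := by
  have : (PresentedGroup.mk (rels k)) (FreeGroup.of true ^ 2) = 1 :=
    PresentedGroup.one_of_mem (by simp [rels])
  rw [map_pow, sq] at this
  exact this

theorem st_cube : (sg k * ta k) ^ 3 = 1 := by
  have : (PresentedGroup.mk (rels k)) ((FreeGroup.of false * FreeGroup.of true) ^ 3) = 1 :=
    PresentedGroup.one_of_mem (by simp [rels])
  rw [map_pow, map_mul] at this
  exact this

theorem mk_eq_iff (a b : Dyck k) : (QuotientGroup.mk a : Dyck k ⧸ Subgroup.zpowers (sg k)) =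
    QuotientGroup.mk b ↔ ∃ z : ℤ, b = a * sg k ^ z := by
  rw [QuotientGroup.eq, Subgroup.mem_zpowers_iff]
  constructor
  · rintro ⟨z, hz⟩; exact ⟨z, by rw [hz]; group⟩
  · rintro ⟨z, hz⟩; exact ⟨z, by rw [hz]; group⟩

/-- left multiplication acts by automorphisms -/
def leftAut (h : Dyck k) : H k ≃g H k where
  toEquiv := MulAction.toPerm h
  map_rel_iff' := by
    intro a b
    simp only [H, SimpleGraph.fromRel_adj, MulAction.toPerm_apply]
    have key : ∀ (h : Dyck k) (a b : Dyck k ⧸ Subgroup.zpowers (sg k)),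
        (∃ g : Dyck k, a = QuotientGroup.mk g ∧ b = QuotientGroup.mk (g * ta k)) →
        (∃ g : Dyck k, h • a = QuotientGroup.mk g ∧ h • b = QuotientGroup.mk (g * ta k)) := by
      rintro h a b ⟨g, rfl, rfl⟩
      exact ⟨h * g, rfl, by rw [mul_assoc]; rfl⟩
    have key2 : ∀ (a b : Dyck k ⧸ Subgroup.zpowers (sg k)),
        (∃ g : Dyck k, h • a = QuotientGroup.mk g ∧ h • b = QuotientGroup.mk (g * ta k)) →
        (∃ g : Dyck k, a = QuotientGroup.mk g ∧ b = QuotientGroup.mk (g * ta k)) := by
      intro a b hab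
      have := key h⁻¹ _ _ hab
      simpa using this
    constructor
    · rintro ⟨h1, h2⟩
      refine ⟨fun e => h1 (by rw [e]), ?_⟩
      rcases h2 with h2 | h2
      · exact Or.inl (key2 _ _ h2)
      · exact Or.inr (key2 _ _ h2)
    · rintro ⟨h1, h2⟩
      refine ⟨fun e => h1 (smul_left_cancel h e), ?_⟩
      rcases h2 with h2 | h2
      · exact Or.inl (key h _ _ h2)
      · exact Or.inr (key h _ _ h2)

theorem trans (u v : Dyck k ⧸ Subgroup.zpowers (sg k)) : ∃ φ : H k ≃g H k, φ u = v := by
  induction u using QuotientGroup.induction_on with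
  | H a =>
    induction v using QuotientGroup.induction_on with
    | H b =>
      refine ⟨leftAut (b * a⁻¹), ?_⟩
      show (QuotientGroup.mk ((b * a⁻¹) * a) : Dyck k ⧸ Subgroup.zpowers (sg k)) = _
      rw [inv_mul_cancel_right]

theorem zpow_eq (hk : 0 < k) (z : ℤ) : ∃ j < k, sg k ^ z = sg k ^ j := by
  refine ⟨(z % k).toNat, ?_, ?_⟩
  · have h1 := Int.emod_nonneg z (show (k : ℤ) ≠ 0 by omega)
    have h2 := Int.emod_lt_of_pos z (show (0 : ℤ) < k by omega)
    omega
  · have h1 := Int.emod_nonneg z (show (k : ℤ) ≠ 0 by omega)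
    rw [← zpow_natCast, Int.toNat_of_nonneg h1]
    conv_lhs => rw [← Int.mul_ediv_add_emod z k]
    rw [zpow_add, zpow_mul, zpow_natCast, sg_pow, one_zpow, one_mul]

theorem nbr_sub (hk : 0 < k) (g : Dyck k) :
    (H k).neighborSet (QuotientGroup.mk g) ⊆
      (fun j : ℕ => (QuotientGroup.mk (g * sg k ^ j * ta k) : Dyck k ⧸ Subgroup.zpowers (sg k))) ''
        (Set.Iio k) := by
  intro v hv
  rw [SimpleGraph.mem_neighborSet, H, SimpleGraph.fromRel_adj] at hv
  obtain ⟨-, ⟨g', h1, h2⟩ | ⟨g', h1, h2⟩⟩ := hv
  · obtain ⟨z, hz⟩ := (mk_eq_iff _ _).1 h1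
    obtain ⟨j, hj, hj'⟩ := zpow_eq hk z
    exact ⟨j, hj, by rw [h2, hz, hj']⟩
  · obtain ⟨z, hz⟩ := (mk_eq_iff _ _).1 h2
    obtain ⟨j, hj, hj'⟩ := zpow_eq hk z
    refine ⟨j, hj, ?_⟩
    simp only
    rw [h1, ← hj', ← hz, mul_assoc, ta_sq, mul_one]

theorem nbr_finite (hk : 0 < k) (v : Dyck k ⧸ Subgroup.zpowers (sg k)) :
    ((H k).neighborSet v).Finite ∧ ((H k).neighborSet v).ncard ≤ k := by
  induction v using QuotientGroup.induction_on with
  | H g =>
    have h := nbr_sub hk g
    have hf : ((fun j : ℕ => (QuotientGroup.mk (g * sg k ^ j * ta k) :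
      Dyck k ⧸ Subgroup.zpowers (sg k))) '' (Set.Iio k)).Finite := (Set.finite_Iio k).image _
    refine ⟨hf.subset h, (Set.ncard_le_ncard h hf).trans ?_⟩
    refine (Set.ncard_image_le (Set.finite_Iio k)).trans ?_
    rw [Set.ncard_eq_toFinset_card']; simp

instance : Countable (FreeGroup Bool) := by
  unfold FreeGroup; infer_instance

instance : Countable (Dyck k) :=
  Function.Surjective.countable (PresentedGroup.mk_surjective (rels k))

instance : Countable (Dyck k ⧸ Subgroup.zpowers (sg k)) :=
  Function.Surjective.countable (QuotientGroup.mk_surjective (s := Subgroup.zpowers (sg k)))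

/-- valid darts of the layered triangulation -/
abbrev Dt (k : ℕ) : Type := {d : List ℕ × ℕ // Lay.DV k d}

/-- inverse rotation -/
def Rinv (k : ℕ) (d : List ℕ × ℕ) : List ℕ × ℕ := (d.1, if d.2 = 0 then k - 1 else d.2 - 1)

/-- rotation as a permutation -/
def Rp (hk : 7 ≤ k) : Equiv.Perm (Dt k) where
  toFun d := ⟨Lay.R k d.1, Lay.R_val hk _ d.2⟩
  invFun d := ⟨Rinv k d.1, ⟨d.2.1, by
    have := d.2.2
    show (if d.1.2 = 0 then k - 1 else d.1.2 - 1) < k
    split_ifs <;> omega⟩⟩
  left_inv := by
    rintro ⟨⟨l, j⟩, hd⟩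
    apply Subtype.ext
    have hj : j < k := hd.2
    simp only [Lay.R, Rinv]
    congr 1
    by_cases h : j + 1 < k
    · simp [h]
    · simp [h]; omega
  right_inv := by
    rintro ⟨⟨l, j⟩, hd⟩
    apply Subtype.ext
    have hj : j < k := hd.2
    simp only [Lay.R, Rinv]
    congr 1
    by_cases h : j = 0
    · subst h
      have : ¬ (k - 1 + 1 < k) := by omega
      simp [this]
    · have h1 : j - 1 + 1 < k := by omega
      simp only [h, if_false, h1, if_true]
      omega

/-- reversal as a permutation -/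
def Tp (hk : 7 ≤ k) : Equiv.Perm (Dt k) where
  toFun d := ⟨Lay.T k d.1, Lay.T_val hk _ d.2⟩
  invFun d := ⟨Lay.T k d.1, Lay.T_val hk _ d.2⟩
  left_inv := fun d => Subtype.ext (Lay.TT hk d.1 d.2)
  right_inv := fun d => Subtype.ext (Lay.TT hk d.1 d.2)

theorem Rp_pow_apply (hk : 7 ≤ k) (n : ℕ) (d : Dt k) :
    (((Rp hk) ^ n) d).1 = (d.1.1, (d.1.2 + n) % k) := by
  induction n with
  | zero =>
    obtain ⟨⟨l, j⟩, hd⟩ := d
    have : j < k := hd.2
    simp [Nat.mod_eq_of_lt this]
  | succ n ih =>
    rw [pow_succ', Equiv.Perm.mul_apply]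
    show Lay.R k (((Rp hk) ^ n) d).1 = _
    rw [ih]
    simp only [Lay.R]
    congr 1
    have hlt : (d.1.2 + n) % k < k := Nat.mod_lt _ (by omega)
    rw [← Nat.add_assoc, Nat.add_mod (d.1.2 + n) 1 k, Nat.mod_eq_of_lt (show 1 < k by omega)]
    split_ifs with h
    · rw [Nat.mod_eq_of_lt h]
    · have : (d.1.2 + n) % k + 1 = k := by omega
      rw [this, Nat.mod_self]

theorem Rp_pow (hk : 7 ≤ k) : (Rp hk) ^ k = 1 := by
  ext1 d
  apply Subtype.ext
  rw [Rp_pow_apply, Nat.add_mod_right, Nat.mod_eq_of_lt d.2.2]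
  rfl

theorem Tp_sq (hk : 7 ≤ k) : (Tp hk) ^ 2 = 1 := by
  ext1 d
  apply Subtype.ext
  rw [sq]
  exact Lay.TT hk d.1 d.2

theorem RT_cube (hk : 7 ≤ k) : (Rp hk * Tp hk) ^ 3 = 1 := by
  ext1 d
  apply Subtype.ext
  exact Lay.FFF hk d.1 d.2

theorem TR_cube (hk : 7 ≤ k) : (Tp hk * Rp hk) ^ 3 = 1 := by
  have h := RT_cube hk
  have : (Tp hk * Rp hk) ^ 3 = (Rp hk)⁻¹ * (Rp hk * Tp hk) ^ 3 * Rp hk := by
    simp [pow_succ, mul_assoc]
  rw [this, h]; simp

/-- images of the generators -/
def gen (hk : 7 ≤ k) (b : Bool) : (Equiv.Perm (Dt k))ᵐᵒᵖ :=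
  if b then MulOpposite.op (Tp hk) else MulOpposite.op (Rp hk)

theorem gen_rels (hk : 7 ≤ k) : ∀ r ∈ rels k, FreeGroup.lift (gen hk) r = 1 := by
  intro r hr
  simp only [rels, Set.mem_insert_iff, Set.mem_singleton_iff] at hr
  rcases hr with rfl | rfl | rfl
  · rw [map_pow, FreeGroup.lift_apply_of]
    show (MulOpposite.op (Rp hk)) ^ k = 1
    rw [← MulOpposite.op_pow, Rp_pow]; rfl
  · rw [map_pow, FreeGroup.lift_apply_of]
    show (MulOpposite.op (Tp hk)) ^ 2 = 1
    rw [← MulOpposite.op_pow, Tp_sq]; rfl
  · rw [map_pow, map_mul, FreeGroup.lift_apply_of, FreeGroup.lift_apply_of]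
    show (MulOpposite.op (Rp hk) * MulOpposite.op (Tp hk)) ^ 3 = 1
    rw [← MulOpposite.op_mul, ← MulOpposite.op_pow, TR_cube]; rfl

/-- the homomorphism to the opposite of the permutation group -/
noncomputable def Phi (hk : 7 ≤ k) : Dyck k →* (Equiv.Perm (Dt k))ᵐᵒᵖ :=
  PresentedGroup.toGroup (gen_rels hk)

/-- the dart reached by `g` from the base dart `d` -/
noncomputable def Dm (hk : 7 ≤ k) (d : Dt k) (g : Dyck k) : Dt k := (Phi hk g).unop d

theorem Dm_one (hk : 7 ≤ k) (d : Dt k) : Dm hk d 1 = d := by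
  simp [Dm]

theorem Dm_sg (hk : 7 ≤ k) (d : Dt k) (g : Dyck k) : Dm hk d (g * sg k) = Rp hk (Dm hk d g) := by
  unfold Dm
  rw [map_mul]
  have : Phi hk (sg k) = MulOpposite.op (Rp hk) := by
    unfold Phi sg; rw [PresentedGroup.toGroup.of]; rfl
  rw [this]; rfl

theorem Dm_ta (hk : 7 ≤ k) (d : Dt k) (g : Dyck k) : Dm hk d (g * ta k) = Tp hk (Dm hk d g) := by
  unfold Dm
  rw [map_mul]
  have : Phi hk (ta k) = MulOpposite.op (Tp hk) := by
    unfold Phi ta; rw [PresentedGroup.toGroup.of]; rfl
  rw [this]; rfl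

theorem Dm_sg_pow (hk : 7 ≤ k) (d : Dt k) (g : Dyck k) (n : ℕ) :
    Dm hk d (g * sg k ^ n) = ((Rp hk) ^ n) (Dm hk d g) := by
  induction n with
  | zero => simp
  | succ n ih => rw [pow_succ, ← mul_assoc, Dm_sg, ih, pow_succ', Equiv.Perm.mul_apply]

theorem Dm_vertex (hk : 7 ≤ k) (d : Dt k) {a b : Dyck k}
    (h : (QuotientGroup.mk a : Dyck k ⧸ Subgroup.zpowers (sg k)) = QuotientGroup.mk b) :
    (Dm hk d a).1.1 = (Dm hk d b).1.1 := by
  obtain ⟨z, hz⟩ := (mk_eq_iff _ _).1 h
  obtain ⟨j, hj, hj'⟩ := zpow_eq (k := k) (by omega) z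
  rw [hz, hj', Dm_sg_pow, Rp_pow_apply]

/-- codes of the vertices of a binary tree in the layered triangulation -/
def fc : List Bool → List ℕ
  | [] => [0]
  | b :: w => (if b then 1 else 0) :: fc w

theorem fc_ne (w : List Bool) : fc w ≠ [] := by cases w <;> simp [fc]

theorem fc_val (hk : 7 ≤ k) (w : List Bool) : Lay.Val k (fc w) := by
  induction w with
  | nil => exact ⟨by simp only [Lay.mm]; omega, trivial⟩
  | cons b w ih =>
    refine ⟨?_, ih⟩
    have := Lay.mm_ge hk (fc w)
    split_ifs <;> omega

theorem fc_inj : Function.Injective fc := by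
  intro w
  induction w with
  | nil =>
    intro w' h
    cases w' with
    | nil => rfl
    | cons b w' =>
      simp only [fc, List.cons.injEq] at h
      exact absurd h.2.symm (fc_ne w')
  | cons b w ih =>
    intro w' h
    cases w' with
    | nil =>
      simp only [fc, List.cons.injEq] at h
      exact absurd h.2 (fc_ne w)
    | cons b' w' =>
      simp only [fc, List.cons.injEq] at h
      rw [ih h.2]
      congr 1
      have := h.1
      cases b <;> cases b' <;> simp_all

/-- group elements leading to the vertices of the binary tree -/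
def gg (k : ℕ) : List Bool → Dyck k
  | [] => 1
  | b :: w => gg k w * sg k ^ (Lay.mm k (fc w) + 2 - (if b then 1 else 0)) * ta k

theorem Dm_gg (hk : 7 ≤ k) (w : List Bool) :
    Dm hk ⟨([0], 0), ⟨fc_val hk [], by show 0 < k; omega⟩⟩ (gg k w) =
      ⟨(fc w, 0), ⟨fc_val hk w, by show 0 < k; omega⟩⟩ := by
  induction w with
  | nil => rw [gg, Dm_one]; rfl
  | cons b w ih =>
    rw [gg, Dm_ta, Dm_sg_pow, ih]
    apply Subtype.ext
    show Lay.T k (((Rp hk) ^ _) _).1 = _
    rw [Rp_pow_apply]
    have h1 := Lay.mm_ge hk (fc w)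
    have h2 := Lay.mm_le hk (fc_ne w)
    have hb : (if b then 1 else 0 : ℕ) ≤ 1 := by split_ifs <;> omega
    rw [Nat.zero_add, Nat.mod_eq_of_lt (by omega), Lay.T_C (fc_ne w) (by omega) (by omega)]
    simp only [fc]
    congr 2
    omega

theorem gg_inj (hk : 7 ≤ k) : Function.Injective
    (fun w => (QuotientGroup.mk (gg k w) : Dyck k ⧸ Subgroup.zpowers (sg k))) := by
  intro w w' h
  have := Dm_vertex hk ⟨([0], 0), ⟨fc_val hk [], by show 0 < k; omega⟩⟩ h
  rw [Dm_gg, Dm_gg] at this
  exact fc_inj this

theorem gg_adj (hk : 7 ≤ k) (w : List Bool) (b : Bool) :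
    (H k).Adj (QuotientGroup.mk (gg k w)) (QuotientGroup.mk (gg k (b :: w))) := by
  rw [H, SimpleGraph.fromRel_adj]
  refine ⟨?_, Or.inl ⟨gg k w * sg k ^ (Lay.mm k (fc w) + 2 - (if b then 1 else 0)), ?_, rfl⟩⟩
  · intro h
    have := gg_inj hk h
    have := congrArg List.length this
    simp at this
  · rw [mk_eq_iff]
    exact ⟨_, by rw [zpow_natCast]⟩

/-- sanity check: `H k` is infinite -/
theorem H_infinite (hk : 7 ≤ k) : Infinite (Dyck k ⧸ Subgroup.zpowers (sg k)) :=
  Infinite.of_injective _ (gg_inj hk)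

theorem nbr_inj (hk : 7 ≤ k) (g : Dyck k) : Set.InjOn (fun j : ℕ =>
    (QuotientGroup.mk (g * sg k ^ j * ta k) : Dyck k ⧸ Subgroup.zpowers (sg k))) (Set.Iio k) := by
  intro i hi j hj h
  simp only [Set.mem_Iio] at hi hj
  have h' : (QuotientGroup.mk (1 * sg k ^ i * ta k) : Dyck k ⧸ Subgroup.zpowers (sg k)) =
      QuotientGroup.mk (1 * sg k ^ j * ta k) := by
    obtain ⟨z, hz⟩ := (mk_eq_iff _ _).1 h
    rw [mk_eq_iff]
    refine ⟨z, ?_⟩
    have : g * (1 * sg k ^ j * ta k) = g * ((1 * sg k ^ i * ta k) * sg k ^ z) := by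
      rw [one_mul, one_mul, ← mul_assoc, hz]; simp only [mul_assoc]
    exact mul_left_cancel this
  have h2 := Dm_vertex hk ⟨([], 0), ⟨trivial, by show 0 < k; omega⟩⟩ h'
  have e : ∀ j < k, (Dm hk ⟨([], 0), ⟨trivial, by show 0 < k; omega⟩⟩
      (1 * sg k ^ j * ta k)).1.1 = [(k - j) % k] := by
    intro j hj
    rw [Dm_ta, Dm_sg_pow, Dm_one]
    show (Lay.T k (((Rp hk) ^ j) _).1).1 = _
    rw [Rp_pow_apply, Nat.zero_add, Nat.mod_eq_of_lt hj, Lay.T_nil]
  rw [e i hi, e j hj] at h2
  simp only [List.cons.injEq, and_true] at h2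
  rcases Nat.eq_zero_or_pos i with h | h <;> rcases Nat.eq_zero_or_pos j with h' | h'
  · omega
  · subst h
    rw [Nat.sub_zero, Nat.mod_self, Nat.mod_eq_of_lt (by omega)] at h2
    omega
  · subst h'
    rw [Nat.sub_zero, Nat.mod_self, Nat.mod_eq_of_lt (by omega)] at h2
    omega
  · rw [Nat.mod_eq_of_lt (by omega), Nat.mod_eq_of_lt (by omega)] at h2
    omega

theorem ta_ne (hk : 7 ≤ k) (g : Dyck k) :
    (QuotientGroup.mk g : Dyck k ⧸ Subgroup.zpowers (sg k)) ≠ QuotientGroup.mk (g * ta k) := by
  intro h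
  have h' : (QuotientGroup.mk 1 : Dyck k ⧸ Subgroup.zpowers (sg k)) =
      QuotientGroup.mk (1 * ta k) := by
    obtain ⟨z, hz⟩ := (mk_eq_iff _ _).1 h
    rw [mk_eq_iff]
    exact ⟨z, by rw [one_mul, one_mul]; exact mul_left_cancel hz⟩
  have h2 := Dm_vertex hk ⟨([], 0), ⟨trivial, by show 0 < k; omega⟩⟩ h'
  rw [Dm_ta, Dm_one] at h2
  have : ([] : List ℕ) = [(k - 0) % k] := h2
  simp at this

/-- sanity check: the neighbours of the vertex of the dart `g` are the `k` end points of the
darts `g`, `g σ`, ..., `g σ^(k-1)` -/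
theorem nbr_eq (hk : 7 ≤ k) (g : Dyck k) : (H k).neighborSet (QuotientGroup.mk g) =
    (fun j : ℕ => (QuotientGroup.mk (g * sg k ^ j * ta k) : Dyck k ⧸ Subgroup.zpowers (sg k))) ''
      (Set.Iio k) := by
  apply Set.Subset.antisymm (nbr_sub (by omega) g)
  rintro _ ⟨j, _, rfl⟩
  rw [SimpleGraph.mem_neighborSet, H, SimpleGraph.fromRel_adj]
  have e : (QuotientGroup.mk g : Dyck k ⧸ Subgroup.zpowers (sg k)) =
      QuotientGroup.mk (g * sg k ^ j) := by
    rw [mk_eq_iff]; exact ⟨j, by rw [zpow_natCast]⟩
  refine ⟨?_, Or.inl ⟨g * sg k ^ j, e, rfl⟩⟩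
  rw [e]; exact ta_ne hk _

/-- sanity check: `H k` is `k`-regular -/
theorem H_regular (hk : 7 ≤ k) (v : Dyck k ⧸ Subgroup.zpowers (sg k)) :
    ((H k).neighborSet v).ncard = k := by
  induction v using QuotientGroup.induction_on with
  | H g =>
    rw [nbr_eq hk g, Set.ncard_image_of_injOn (nbr_inj hk g), Set.ncard_eq_toFinset_card']
    simp

/-- sanity check: `H k` is connected -/
theorem H_connected (hk : 7 ≤ k) : (H k).Connected := by
  have key : ∀ g : Dyck k, (H k).Reachable (QuotientGroup.mk 1) (QuotientGroup.mk g) := by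
    intro g
    have hg : g ∈ Subgroup.closure (Set.range (PresentedGroup.of (rels := rels k))) := by
      rw [PresentedGroup.closure_range_of]; trivial
    have hta : ∀ x : Dyck k, (H k).Adj (QuotientGroup.mk x) (QuotientGroup.mk (x * ta k)) := by
      intro x
      have : (QuotientGroup.mk (x * ta k) : Dyck k ⧸ Subgroup.zpowers (sg k)) ∈
          (H k).neighborSet (QuotientGroup.mk x) := by
        rw [nbr_eq hk x]
        exact ⟨0, by show 0 < k; omega, by simp⟩
      exact this
    induction hg using Subgroup.closure_induction_right with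
    | one => exact SimpleGraph.Reachable.refl _
    | mul_right x hx y hy ih =>
      obtain ⟨b, rfl⟩ := hy
      cases b with
      | false =>
        have e : (QuotientGroup.mk (x * PresentedGroup.of false) :
            Dyck k ⧸ Subgroup.zpowers (sg k)) = QuotientGroup.mk x := by
          symm; rw [mk_eq_iff]; exact ⟨1, by rw [zpow_one]; rfl⟩
        rw [e]; exact ih
      | true => exact ih.trans (hta x).reachable
    | mul_inv_cancel x hx y hy ih =>
      obtain ⟨b, rfl⟩ := hy
      cases b with
      | false =>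
        have e : (QuotientGroup.mk (x * (PresentedGroup.of false)⁻¹) :
            Dyck k ⧸ Subgroup.zpowers (sg k)) = QuotientGroup.mk x := by
          symm; rw [mk_eq_iff]; exact ⟨-1, by rw [zpow_neg_one]; rfl⟩
        rw [e]; exact ih
      | true =>
        have e : x * (PresentedGroup.of true)⁻¹ = x * ta k := by
          have := ta_sq (k := k)
          have h2 : (ta k)⁻¹ = ta k := inv_eq_of_mul_eq_one_left this
          exact congrArg (x * ·) h2
        rw [e]; exact ih.trans (hta x).reachable
  refine ⟨?_⟩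
  intro u v
  induction u using QuotientGroup.induction_on with
  | H a =>
    induction v using QuotientGroup.induction_on with
    | H b => exact (key a).symm.trans (key b)

/-- local finiteness -/
@[instance_reducible] noncomputable def locFin (hk : 7 ≤ k) : (H k).LocallyFinite :=
  fun v => (nbr_finite (by omega) v).1.fintype

theorem main (hk : 7 ≤ k) (v : Dyck k ⧸ Subgroup.zpowers (sg k)) :
    1 / (k : ℝ) ^ 2 ≤ (percMeasure (H k).edgeSet (pbt (H k))).real (Einf (H k) v) := by
  let _ := locFin hk
  apply main_general (H k) k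
  · intro v
    rw [← SimpleGraph.card_neighborSet_eq_degree, ← Nat.card_eq_fintype_card]
    exact (nbr_finite (by omega) v).2
  · exact trans
  · refine ⟨1, ?_⟩
    show percMeasure (H k).edgeSet 1 (treeEvent (H k)) = 1
    rw [percMeasure_one]
    have hmeas : MeasurableSet (treeEvent (H k)) := by
      rw [treeEvent_eq]
      exact MeasurableSet.iUnion (fun v => Einf_meas (H k) v)
    rw [Measure.dirac_apply' _ hmeas, Set.indicator_of_mem]
    · rfl
    · rw [treeEvent_eq, Set.mem_iUnion]
      refine ⟨QuotientGroup.mk (gg k []), fun w => QuotientGroup.mk (gg k w), rfl, gg_inj hk, ?_⟩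
      intro w b
      exact ⟨gg_adj hk w b, rfl⟩

theorem main' (hk : 7 ≤ k) :
    0 < percMeasure (H k).edgeSet (pbt (H k)) (treeEvent (H k)) := by
  have h := main hk (QuotientGroup.mk 1)
  have hkpos : (0 : ℝ) < k := by
    have : (7 : ℝ) ≤ k := by exact_mod_cast hk
    linarith
  have h1 : 0 < (percMeasure (H k).edgeSet (pbt (H k))).real (Einf (H k) (QuotientGroup.mk 1)) :=
    lt_of_lt_of_le (by positivity) h
  rw [measureReal_def, ENNReal.toReal_pos_iff] at h1
  refine lt_of_lt_of_le h1.1 (measure_mono ?_)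
  rw [treeEvent_eq]
  exact Set.subset_iUnion (fun v => Einf (H k) v) _

end HKsec

/-- At the critical value `p_bt`, bond percolation on the `k`-regular planar triangulation
contains an embedded full binary tree with positive probability. -/
theorem result (k : ℕ) (hk : 7 ≤ k) :
    0 < percMeasure (H k).edgeSet (pbt (H k)) (treeEvent (H k)) :=
  main' hk

end Pool.Agent.Results.MP_950aae_pr.FirstOrder
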