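import Mathlib

open MeasureTheory ProbabilityTheory Finset

namespace Pool.Agent.Results.MP_950aae_pr.Transitive

/-! ### Definitions used in the statement -/

/-- The full binary tree `T_2`: its vertices are the finite words in `{true, false}`, the root is
the empty word, and the two children of the word `w` are `true :: w` and `false :: w`. -/
def T2 : SimpleGraph (List Bool) := SimpleGraph.fromRel (fun w w' => ∃ b, w' = b :: w)

/-- The product measure on `ι → Bool` under which the coordinates are independent and each is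
`true` with probability `p`. For `ι = G.edgeSet` this is Bernoulli bond percolation on `G` with
parameter `p` (an edge `e` is open in the configuration `ω` when `ω e = true`). -/
noncomputable def percMeasure (ι : Type*) (p : unitInterval) : Measure (ι → Bool) :=
  Measure.infinitePi (fun _ : ι => bernoulliMeasure true false p)

/-- The subgraph of `G` formed by the open edges of the configuration `ω`. -/
def openGraph {V : Type} (G : SimpleGraph V) (ω : G.edgeSet → Bool) : SimpleGraph V where
  Adj u v := ∃ h : G.Adj u v, ω ⟨s(u, v), h⟩ = true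
  symm := ⟨by
    rintro u v ⟨h, ho⟩
    refine ⟨h.symm, ?_⟩
    rw [← ho]
    congr 1
    exact Subtype.ext Sym2.eq_swap⟩
  loopless := ⟨fun v ⟨h, _⟩ => h.ne rfl⟩

/-- The event `E`: some open cluster (connected component of the open subgraph) contains a
subgraph isomorphic to the full binary tree. -/
def treeEvent {V : Type} (G : SimpleGraph V) : Set (G.edgeSet → Bool) :=
  {ω | ∃ C : (openGraph G ω).ConnectedComponent, T2.IsContained C.toSimpleGraph}

/-- The critical value `p_bt = inf {p ∈ [0,1] : P_p(E) = 1}`. -/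
noncomputable def pbt {V : Type} (G : SimpleGraph V) : unitInterval :=
  sInf {p : unitInterval | percMeasure G.edgeSet p (treeEvent G) = 1}

/-! ### The van den Berg–Kesten inequality -/

section BKsec

variable {α : Type*} [DecidableEq α]

/-- weight of the subset `S` of `Λ` when elements are present independently with prob. `p` -/
def wt (p : ℝ) (Λ S : Finset α) : ℝ := ∏ e ∈ Λ, if e ∈ S then p else 1 - p

open Classical in
/-- probability of the set family `A` for a random subset of `Λ` -/
noncomputable def q (p : ℝ) (Λ : Finset α) (A : Set (Finset α)) : ℝ :=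
  ∑ S ∈ Λ.powerset, if S ∈ A then wt p Λ S else 0

/-- disjoint occurrence -/
def box (A B : Set (Finset α)) : Set (Finset α) :=
  {S | ∃ I J, Disjoint I J ∧ I ⊆ S ∧ J ⊆ S ∧ I ∈ A ∧ J ∈ B}

/-- increasing families -/
def Up (A : Set (Finset α)) : Prop := ∀ S T, S ⊆ T → S ∈ A → T ∈ A

/-- the family obtained by adding `e` -/
def addE (e : α) (A : Set (Finset α)) : Set (Finset α) := {S | insert e S ∈ A}

theorem wt_nonneg {p : ℝ} (h0 : 0 ≤ p) (h1 : p ≤ 1) (Λ S : Finset α) : 0 ≤ wt p Λ S := by
  unfold wt
  apply Finset.prod_nonneg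
  intro e _
  split_ifs <;> linarith

theorem wt_insert {p : ℝ} {e : α} {Λ S : Finset α} (he : e ∉ Λ) (hS : S ⊆ Λ) :
    wt p (insert e Λ) S = (1 - p) * wt p Λ S := by
  unfold wt
  rw [Finset.prod_insert he, if_neg (fun h => he (hS h))]

theorem wt_insert' {p : ℝ} {e : α} {Λ S : Finset α} (he : e ∉ Λ) :
    wt p (insert e Λ) (insert e S) = p * wt p Λ S := by
  unfold wt
  rw [Finset.prod_insert he, if_pos (Finset.mem_insert_self _ _)]
  congr 1
  apply Finset.prod_congr rfl
  intro x hx
  have : x ≠ e := fun h => he (h ▸ hx)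
  simp [Finset.mem_insert, this]

theorem q_insert (p : ℝ) {e : α} {Λ : Finset α} (he : e ∉ Λ) (A : Set (Finset α)) :
    q p (insert e Λ) A = (1 - p) * q p Λ A + p * q p Λ (addE e A) := by
  classical
  unfold q
  rw [Finset.sum_powerset_insert he, Finset.mul_sum, Finset.mul_sum]
  congr 1
  · apply Finset.sum_congr rfl
    intro S hS
    rw [Finset.mem_powerset] at hS
    rw [wt_insert he hS]
    split_ifs <;> simp
  · apply Finset.sum_congr rfl
    intro S hS
    rw [wt_insert' he]
    by_cases h : insert e S ∈ A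
    · have h' : S ∈ addE e A := h
      simp [h, h']
    · have h' : S ∉ addE e A := h
      simp [h, h']

theorem q_nonneg {p : ℝ} (h0 : 0 ≤ p) (h1 : p ≤ 1) (Λ : Finset α) (A : Set (Finset α)) :
    0 ≤ q p Λ A := by
  unfold q
  apply Finset.sum_nonneg
  intro S _
  split_ifs
  · exact wt_nonneg h0 h1 _ _
  · exact le_refl _

theorem Up.addE {A : Set (Finset α)} (hA : Up A) (e : α) : Up (addE e A) := by
  intro S T hST hS
  exact hA _ _ (Finset.insert_subset_insert e hST) hS

theorem sub_addE {A : Set (Finset α)} (hA : Up A) (e : α) : A ⊆ addE e A := by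
  intro S hS
  exact hA _ _ (Finset.subset_insert e S) hS

omit [DecidableEq α] in
theorem box_mono {A B A' B' : Set (Finset α)} (hA : A ⊆ A') (hB : B ⊆ B') :
    box A B ⊆ box A' B' := by
  rintro S ⟨I, J, h1, h2, h3, h4, h5⟩
  exact ⟨I, J, h1, h2, h3, hA h4, hB h5⟩

theorem addE_box {A B : Set (Finset α)} {e : α} {S : Finset α}
    (h : S ∈ addE e (box A B)) : S ∈ box A B ∨ S ∈ box (addE e A) B ∨ S ∈ box A (addE e B) := by
  obtain ⟨I, J, h1, h2, h3, h4, h5⟩ := h
  have hsub : ∀ K : Finset α, K ⊆ insert e S → K.erase e ⊆ S := by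
    intro K hK x hx
    rw [Finset.mem_erase] at hx
    rcases Finset.mem_insert.1 (hK hx.2) with h | h
    · exact absurd h hx.1
    · exact h
  have hsub' : ∀ K : Finset α, K ⊆ insert e S → e ∉ K → K ⊆ S := by
    intro K hK he x hx
    rcases Finset.mem_insert.1 (hK hx) with h | h
    · exact absurd (h ▸ hx) he
    · exact h
  by_cases heI : e ∈ I
  · have heJ : e ∉ J := Finset.disjoint_left.1 h1 heI
    right; left
    refine ⟨I.erase e, J, Finset.disjoint_of_subset_left (Finset.erase_subset _ _) h1,
      hsub I h2, hsub' J h3 heJ, ?_, h5⟩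
    simp only [addE, Set.mem_ofPred_eq, Finset.insert_erase heI]
    exact h4
  · by_cases heJ : e ∈ J
    · right; right
      refine ⟨I, J.erase e, Finset.disjoint_of_subset_right (Finset.erase_subset _ _) h1,
        hsub' I h2 heI, hsub J h3, h4, ?_⟩
      simp only [addE, Set.mem_ofPred_eq, Finset.insert_erase heJ]
      exact h5
    · left
      exact ⟨I, J, h1, hsub' I h2 heI, hsub' J h3 heJ, h4, h5⟩

/-- The van den Berg–Kesten inequality for increasing families. -/
theorem bk {p : ℝ} (h0 : 0 ≤ p) (h1 : p ≤ 1) (Λ : Finset α) : ∀ A B : Set (Finset α),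
    Up A → Up B → q p Λ (box A B) ≤ q p Λ A * q p Λ B := by
  classical
  induction Λ using Finset.induction_on with
  | empty =>
    intro A B _ _
    simp only [q, Finset.powerset_empty, Finset.sum_singleton, wt, Finset.prod_empty]
    by_cases h : (∅ : Finset α) ∈ box A B
    · obtain ⟨I, J, -, h2, h3, h4, h5⟩ := h
      have hI : I = ∅ := Finset.subset_empty.1 h2
      have hJ : J = ∅ := Finset.subset_empty.1 h3
      subst hI; subst hJ
      simp only [h4, h5, if_true]
      split_ifs <;> norm_num
    · rw [if_neg h]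
      split_ifs <;> norm_num
  | insert e Λ he ih =>
    intro A B hA hB
    have key : q p (insert e Λ) (box A B) ≤ (1 - p) * (1 - p) * q p Λ (box A B) +
        p * (1 - p) * q p Λ (box (addE e A) B) + p * (1 - p) * q p Λ (box A (addE e B)) +
        p * p * q p Λ (box (addE e A) (addE e B)) := by
      rw [q_insert p he]
      unfold q
      simp only [Finset.mul_sum, ← Finset.sum_add_distrib]
      apply Finset.sum_le_sum
      intro S _
      have hw := wt_nonneg h0 h1 Λ S
      have m1 : S ∈ box A B → S ∈ box (addE e A) B := fun h => box_mono (sub_addE hA e) le_rfl h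
      have m2 : S ∈ box A B → S ∈ box A (addE e B) := fun h => box_mono le_rfl (sub_addE hB e) h
      have m3 : S ∈ box (addE e A) B → S ∈ box (addE e A) (addE e B) :=
        fun h => box_mono le_rfl (sub_addE hB e) h
      have m4 : S ∈ box A (addE e B) → S ∈ box (addE e A) (addE e B) :=
        fun h => box_mono (sub_addE hA e) le_rfl h
      have m5 : S ∈ addE e (box A B) → S ∈ box A B ∨ S ∈ box (addE e A) B ∨ S ∈ box A (addE e B) :=
        fun h => addE_box h
      have hq : 0 ≤ 1 - p := by linarith
      have t1 : 0 ≤ p * (1 - p) * wt p Λ S := by positivity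
      have t2 : 0 ≤ p * p * wt p Λ S := by positivity
      have t3 : 0 ≤ (1 - p) * (1 - p) * wt p Λ S := by positivity
      by_cases c1 : S ∈ box A B
      · have c2 := m1 c1
        have c3 := m2 c1
        have c4 := m3 c2
        simp only [c1, c2, c3, c4, if_true]
        split_ifs <;> nlinarith
      · by_cases c2 : S ∈ box (addE e A) B
        · have c4 := m3 c2
          by_cases c3 : S ∈ box A (addE e B)
          · simp only [c1, c2, c3, c4, if_true, if_false]
            split_ifs <;> nlinarith
          · simp only [c1, c2, c3, c4, if_true, if_false]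
            split_ifs <;> nlinarith
        · by_cases c3 : S ∈ box A (addE e B)
          · have c4 := m4 c3
            simp only [c1, c2, c3, c4, if_true, if_false]
            split_ifs <;> nlinarith
          · have c5 : S ∉ addE e (box A B) := by
              intro h
              rcases m5 h with h | h | h <;> contradiction
            simp only [c1, c2, c3, c5, if_false]
            split_ifs <;> nlinarith
    refine key.trans ?_
    rw [q_insert p he, q_insert p he]
    have i1 := ih A B hA hB
    have i2 := ih (addE e A) B (hA.addE e) hB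
    have i3 := ih A (addE e B) hA (hB.addE e)
    have i4 := ih (addE e A) (addE e B) (hA.addE e) (hB.addE e)
    have hq : 0 ≤ 1 - p := by linarith
    have j1 := mul_le_mul_of_nonneg_left i1 (mul_nonneg hq hq)
    have j2 := mul_le_mul_of_nonneg_left i2 (mul_nonneg h0 hq)
    have j3 := mul_le_mul_of_nonneg_left i3 (mul_nonneg h0 hq)
    have j4 := mul_le_mul_of_nonneg_left i4 (mul_nonneg h0 h0)
    calc _ ≤ (1 - p) * (1 - p) * (q p Λ A * q p Λ B) + p * (1 - p) * (q p Λ (addE e A) * q p Λ B) +
          p * (1 - p) * (q p Λ A * q p Λ (addE e B)) +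
          p * p * (q p Λ (addE e A) * q p Λ (addE e B)) := by linarith
      _ = _ := by ring

theorem q_mono {p : ℝ} (h0 : 0 ≤ p) (h1 : p ≤ 1) (Λ : Finset α) {A B : Set (Finset α)}
    (h : ∀ S ∈ A, S ∈ B) : q p Λ A ≤ q p Λ B := by
  classical
  unfold q
  apply Finset.sum_le_sum
  intro S _
  have := wt_nonneg h0 h1 Λ S
  by_cases hA : S ∈ A
  · rw [if_pos hA, if_pos (h S hA)]
  · rw [if_neg hA]; split_ifs <;> simp [this]

theorem q_iUnion_le {p : ℝ} (h0 : 0 ≤ p) (h1 : p ≤ 1) (Λ : Finset α) {ι : Type*} (s : Finset ι)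
    (A : ι → Set (Finset α)) : q p Λ (⋃ i ∈ s, A i) ≤ ∑ i ∈ s, q p Λ (A i) := by
  classical
  unfold q
  rw [Finset.sum_comm]
  apply Finset.sum_le_sum
  intro S _
  have hw := wt_nonneg h0 h1 Λ S
  by_cases hS : S ∈ ⋃ i ∈ s, A i
  · rw [if_pos hS]
    simp only [Set.mem_iUnion] at hS
    obtain ⟨i, hi, hSi⟩ := hS
    have := Finset.single_le_sum (f := fun i => if S ∈ A i then wt p Λ S else 0)
      (fun i _ => by split_ifs <;> simp [hw]) hi
    simpa [hSi] using this
  · rw [if_neg hS]
    apply Finset.sum_nonneg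
    intro i _
    split_ifs <;> simp [hw]

theorem q_continuous (Λ : Finset α) (A : Set (Finset α)) : Continuous (fun p : ℝ => q p Λ A) := by
  classical
  unfold q wt
  apply continuous_finsetSum
  intro S _
  by_cases h : S ∈ A
  · simp only [if_pos h]
    apply continuous_finsetProd
    intro e _
    split_ifs <;> fun_prop
  · simp only [if_neg h]; exact continuous_const

end BKsec

/-! ### Product measures -/

section PMsec

variable {ι : Type*} [DecidableEq ι]

instance (ι : Type*) (p : unitInterval) : IsProbabilityMeasure (percMeasure ι p) := by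
  unfold percMeasure; infer_instance

theorem ber_true (p : unitInterval) :
    (bernoulliMeasure true false p) ({true} : Set Bool) = ENNReal.ofReal p := by
  rw [bernoulliMeasure_apply_of_mem_of_notMem p (measurableSet_singleton _) (by simp) (by simp)]
  rw [ENNReal.ofReal]
  congr 1
  ext
  simp
  exact p.2.1

theorem ber_false (p : unitInterval) :
    (bernoulliMeasure true false p) ({false} : Set Bool) = ENNReal.ofReal (1 - p) := by
  rw [bernoulliMeasure_apply_of_notMem_of_mem p (measurableSet_singleton _) (by simp) (by simp)]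
  rw [ENNReal.ofReal]
  congr 1
  ext
  simp [unitInterval.coe_symm_eq]
  exact p.2.2

/-- the open elements of `Λ` -/
def opn (Λ : Finset ι) (ω : ι → Bool) : Finset ι := Λ.filter (fun e => ω e = true)

theorem opn_eq_pi (Λ S : Finset ι) (hS : S ⊆ Λ) : {ω : ι → Bool | opn Λ ω = S} =
    Set.pi (Λ : Set ι) (fun e => if e ∈ S then {true} else {false}) := by
  ext ω
  simp only [Set.mem_ofPred_eq, Set.mem_pi, Finset.mem_coe]
  constructor
  · intro h e he
    by_cases heS : e ∈ S
    · rw [if_pos heS]
      rw [← h] at heS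
      simp [opn] at heS
      simp [heS.2]
    · rw [if_neg heS]
      rw [← h] at heS
      simp [opn, he] at heS
      simp [heS]
  · intro h
    ext e
    simp only [opn, Finset.mem_filter]
    constructor
    · rintro ⟨he, ht⟩
      by_contra heS
      have := h e he
      rw [if_neg heS, ht] at this
      simp at this
    · intro heS
      have := h e (hS heS)
      rw [if_pos heS] at this
      exact ⟨hS heS, by simpa using this⟩

theorem opn_meas (Λ S : Finset ι) (hS : S ⊆ Λ) : MeasurableSet {ω : ι → Bool | opn Λ ω = S} := by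
  rw [opn_eq_pi Λ S hS]
  apply MeasurableSet.pi (Finset.countable_toSet _)
  intro e _
  split_ifs <;> exact measurableSet_singleton _

theorem opn_prob (p : unitInterval) (Λ S : Finset ι) (hS : S ⊆ Λ) :
    percMeasure ι p {ω : ι → Bool | opn Λ ω = S} = ENNReal.ofReal (wt p Λ S) := by
  rw [opn_eq_pi Λ S hS]
  unfold percMeasure wt
  rw [Measure.infinitePi_pi]
  · rw [ENNReal.ofReal_prod_of_nonneg]
    · apply Finset.prod_congr rfl
      intro e _
      split_ifs
      · exact ber_true p
      · exact ber_false p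
    · intro e _
      have := p.2.1
      have := p.2.2
      split_ifs <;> linarith
  · intro e _
    split_ifs <;> exact measurableSet_singleton _

omit [DecidableEq ι] in
theorem cyl_eq (Λ : Finset ι) (A : Set (Finset ι)) [DecidablePred (· ∈ A)] :
    {ω : ι → Bool | opn Λ ω ∈ A} =
      ⋃ S ∈ Λ.powerset.filter (· ∈ A), {ω : ι → Bool | opn Λ ω = S} := by
  ext ω
  simp only [Set.mem_ofPred_eq, Set.mem_iUnion, Finset.mem_filter, Finset.mem_powerset]
  constructor
  · intro h
    exact ⟨opn Λ ω, ⟨Finset.filter_subset _ _, h⟩, rfl⟩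
  · rintro ⟨S, ⟨_, h⟩, rfl⟩; exact h

theorem cyl_meas (Λ : Finset ι) (A : Set (Finset ι)) :
    MeasurableSet {ω : ι → Bool | opn Λ ω ∈ A} := by
  classical
  rw [cyl_eq]
  apply Finset.measurableSet_biUnion
  intro S hS
  simp only [Finset.mem_filter, Finset.mem_powerset] at hS
  exact opn_meas Λ S hS.1

theorem cyl_prob (p : unitInterval) (Λ : Finset ι) (A : Set (Finset ι)) :
    percMeasure ι p {ω : ι → Bool | opn Λ ω ∈ A} = ENNReal.ofReal (q p Λ A) := by
  classical
  rw [cyl_eq, measure_biUnion_finset]
  · have h : ∀ S ∈ Λ.powerset.filter (· ∈ A), percMeasure ι p {ω : ι → Bool | opn Λ ω = S} =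
        ENNReal.ofReal (wt p Λ S) := by
      intro S hS
      simp only [Finset.mem_filter, Finset.mem_powerset] at hS
      exact opn_prob p Λ S hS.1
    rw [Finset.sum_congr rfl h, ← ENNReal.ofReal_sum_of_nonneg]
    · unfold q
      rw [Finset.sum_filter]
    · intro S _
      exact wt_nonneg p.2.1 p.2.2 _ _
  · intro S _ T _ hST
    rw [Function.onFun, Set.disjoint_left]
    rintro ω h1 h2
    simp only [Set.mem_ofPred_eq] at h1 h2
    exact hST (h1.symm.trans h2)
  · intro S hS
    simp only [Finset.mem_filter, Finset.mem_powerset] at hS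
    exact opn_meas Λ S hS.1

end PMsec

/-! ### Tree events -/

section TreeSec

variable {V : Type}

/-- embedding of the binary tree of depth `n` -/
def Emb (H : SimpleGraph V) (n : ℕ) (f : List Bool → V) : Prop :=
  (∀ w : List Bool, w.length < n → ∀ b, H.Adj (f w) (f (b :: w))) ∧
    Set.InjOn f {w | w.length ≤ n}

theorem Emb.mono {H H' : SimpleGraph V} (h : H ≤ H') {n : ℕ} {f : List Bool → V}
    (hf : Emb H n f) : Emb H' n f := ⟨fun w hw b => h (hf.1 w hw b), hf.2⟩

theorem Emb.le {H : SimpleGraph V} {n m : ℕ} (h : m ≤ n) {f : List Bool → V}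
    (hf : Emb H n f) : Emb H m f :=
  ⟨fun w hw b => hf.1 w (by omega) b, hf.2.mono (fun w (hw : w.length ≤ m) => by
    show w.length ≤ n
    omega)⟩

/-- rooted event of depth `n` -/
def Ev (G : SimpleGraph V) (n : ℕ) (v : V) : Set (G.edgeSet → Bool) :=
  {ω | ∃ f : List Bool → V, f [] = v ∧ Emb (openGraph G ω) n f}

/-- the corresponding set family -/
def fam (G : SimpleGraph V) (n : ℕ) (v : V) : Set (Finset G.edgeSet) :=
  {S | ∃ f : List Bool → V, f [] = v ∧ ∃ hf : Emb G n f, ∀ w b (hw : w.length < n),
    (⟨s(f w, f (b :: w)), hf.1 w hw b⟩ : G.edgeSet) ∈ S}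

theorem fam_up (G : SimpleGraph V) (n : ℕ) (v : V) : Up (fam G n v) := by
  rintro S T hST ⟨f, h1, h2, h3⟩
  exact ⟨f, h1, h2, fun w b hw => hST (h3 w b hw)⟩

/-- `Λ` contains all edges that an embedded tree of depth `n` at `v` may use -/
def Good (G : SimpleGraph V) (n : ℕ) (v : V) (Λ : Finset G.edgeSet) : Prop :=
  ∀ f : List Bool → V, f [] = v → ∀ hf : Emb G n f, ∀ w b (hw : w.length < n),
    (⟨s(f w, f (b :: w)), hf.1 w hw b⟩ : G.edgeSet) ∈ Λ

theorem Good.mono {G : SimpleGraph V} {n : ℕ} {v : V} {Λ Λ' : Finset G.edgeSet}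
    (h : Good G n v Λ) (hL : Λ ⊆ Λ') : Good G n v Λ' :=
  fun f hf hE w b hw => hL (h f hf hE w b hw)

theorem openGraph_le (G : SimpleGraph V) (ω : G.edgeSet → Bool) : openGraph G ω ≤ G := by
  rintro u v ⟨h, _⟩; exact h

theorem Ev_eq {G : SimpleGraph V} {n : ℕ} {v : V} {Λ : Finset G.edgeSet} (h : Good G n v Λ) :
    Ev G n v = {ω | opn Λ ω ∈ fam G n v} := by
  ext ω
  constructor
  · rintro ⟨f, h1, h2⟩
    refine ⟨f, h1, h2.mono (openGraph_le G ω), fun w b hw => ?_⟩
    simp only [opn, Finset.mem_filter]
    refine ⟨h f h1 (h2.mono (openGraph_le G ω)) w b hw, ?_⟩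
    obtain ⟨_, ho⟩ := h2.1 w hw b
    exact ho
  · rintro ⟨f, h1, h2, h3⟩
    refine ⟨f, h1, fun w hw b => ?_, h2.2⟩
    have := h3 w b hw
    simp only [opn, Finset.mem_filter] at this
    exact ⟨h2.1 w hw b, this.2⟩

/-- vertices reachable in at most `n` steps -/
noncomputable def rch (G : SimpleGraph V) [G.LocallyFinite] [DecidableEq V] (v : V) : ℕ → Finset V
  | 0 => {v}
  | n + 1 => (rch G v n).biUnion (fun x => insert x (G.neighborFinset x))

theorem rch_mono (G : SimpleGraph V) [G.LocallyFinite] [DecidableEq V] (v : V) (n : ℕ) :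
    rch G v n ⊆ rch G v (n + 1) := by
  intro x hx
  rw [rch, Finset.mem_biUnion]
  exact ⟨x, hx, Finset.mem_insert_self _ _⟩

theorem mem_rch_self (G : SimpleGraph V) [G.LocallyFinite] [DecidableEq V] (v : V) (n : ℕ) :
    v ∈ rch G v n := by
  induction n with
  | zero => simp [rch]
  | succ n ih => exact rch_mono G v n ih

theorem mem_rch (G : SimpleGraph V) [G.LocallyFinite] [DecidableEq V] {v : V} {n : ℕ}
    {f : List Bool → V} (h0 : f [] = v) (hf : Emb G n f) (w : List Bool) (hw : w.length ≤ n) :
    f w ∈ rch G v w.length := by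
  induction w with
  | nil => simp [rch, h0]
  | cons b w ih =>
    rw [List.length_cons] at hw ⊢
    rw [rch, Finset.mem_biUnion]
    refine ⟨f w, ih (by omega), Finset.mem_insert_of_mem ?_⟩
    rw [SimpleGraph.mem_neighborFinset]
    exact hf.1 w (by omega) b

theorem rch_mono' (G : SimpleGraph V) [G.LocallyFinite] [DecidableEq V] (v : V) {m n : ℕ}
    (h : m ≤ n) : rch G v m ⊆ rch G v n := by
  induction h with
  | refl => exact Finset.Subset.refl _
  | step _ ih => exact ih.trans (rch_mono G v _)

theorem exists_good (G : SimpleGraph V) [G.LocallyFinite] (n : ℕ) (v : V) :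
    ∃ Λ : Finset G.edgeSet, Good G n v Λ := by
  classical
  set E0 : Finset (Sym2 V) := (rch G v n).biUnion (fun x => (G.neighborFinset x).image
    (fun y => s(x, y))) with hE0
  have hfin : {e : G.edgeSet | e.1 ∈ E0}.Finite :=
    Set.Finite.preimage (Subtype.val_injective.injOn) (Finset.finite_toSet E0)
  refine ⟨hfin.toFinset, ?_⟩
  intro f h0 hf w b hw
  rw [Set.Finite.mem_toFinset]
  simp only [Set.mem_ofPred_eq, hE0, Finset.mem_biUnion, Finset.mem_image]
  exact ⟨f w, rch_mono' G v (le_of_lt hw) (mem_rch G h0 hf w hw.le), f (b :: w), by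
    rw [SimpleGraph.mem_neighborFinset]; exact hf.1 w hw b, rfl⟩

theorem Ev_meas (G : SimpleGraph V) [G.LocallyFinite] (n : ℕ) (v : V) :
    MeasurableSet (Ev G n v) := by
  classical
  obtain ⟨Λ, h⟩ := exists_good G n v
  rw [Ev_eq h]; exact cyl_meas _ _

theorem fam_succ (G : SimpleGraph V) [G.LocallyFinite] (n : ℕ) (v : V) :
    fam G (n + 1) v ⊆ ⋃ xy ∈ (G.neighborFinset v) ×ˢ (G.neighborFinset v),
      box (fam G n xy.1) (fam G n xy.2) := by
  classical
  rintro S ⟨f, h0, hf, hS⟩
  simp only [Set.mem_iUnion, Finset.mem_product, SimpleGraph.mem_neighborFinset]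
  have hadj : ∀ b, G.Adj v (f [b]) := by
    intro b; have := hf.1 [] (by simp) b; rwa [h0] at this
  -- the two subtrees
  have hsub : ∀ c : Bool, Emb G n (fun w => f (w ++ [c])) := by
    intro c
    refine ⟨fun w hw b => ?_, ?_⟩
    · exact hf.1 (w ++ [c]) (by simp; omega) b
    · intro w hw w' hw' h
      simp only [Set.mem_ofPred_eq] at hw hw'
      have := hf.2 (by simp; omega) (by simp; omega) h
      exact List.append_cancel_right this
  set sb : Bool → Finset G.edgeSet := fun c => S.filter (fun e => ∃ w : List Bool, ∃ b : Bool,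
    w.length < n ∧ e.1 = s(f (w ++ [c]), f (b :: w ++ [c]))) with hsb
  have hmem : ∀ c, sb c ∈ fam G n (f [c]) := by
    intro c
    refine ⟨fun w => f (w ++ [c]), rfl, hsub c, fun w b hw => ?_⟩
    simp only [hsb, Finset.mem_filter]
    exact ⟨hS (w ++ [c]) b (by simp; omega), w, b, hw, rfl⟩
  refine ⟨(f [true], f [false]), ⟨hadj true, hadj false⟩, sb true, sb false, ?_,
    Finset.filter_subset _ _, Finset.filter_subset _ _, hmem true, hmem false⟩
  rw [Finset.disjoint_left]
  intro e he he'
  simp only [hsb, Finset.mem_filter] at he he'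
  obtain ⟨-, w, b, hw, he⟩ := he
  obtain ⟨-, w', b', hw', he'⟩ := he'
  rw [he'] at he
  rw [Sym2.eq_iff] at he
  have key : ∀ u u' : List Bool, u.length ≤ n → u'.length ≤ n →
      f (u ++ [false]) = f (u' ++ [true]) → False := by
    intro u u' hu hu' h
    have := hf.2 (by simp; omega) (by simp; omega) h
    have h2 := List.append_inj_right' this (by simp)
    simp at h2
  rcases he with ⟨h1, _⟩ | ⟨h1, _⟩
  · exact key w' w hw'.le hw.le h1
  · exact key w' (b :: w) hw'.le (by simp; omega) h1

theorem Ev_succ_le (G : SimpleGraph V) [G.LocallyFinite] (p : unitInterval) (n : ℕ) (v : V)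
    (t : ℝ) (ht0 : 0 ≤ t) (ht : ∀ x, G.Adj v x → (percMeasure G.edgeSet p).real (Ev G n x) ≤ t) :
    (percMeasure G.edgeSet p).real (Ev G (n + 1) v) ≤ (G.degree v : ℝ) ^ 2 * t ^ 2 := by
  classical
  have h0 := p.2.1
  have h1 := p.2.2
  choose L hL using exists_good G n
  obtain ⟨Λ0, hΛ0⟩ := exists_good G (n + 1) v
  set Λ := Λ0 ∪ (G.neighborFinset v).biUnion L with hΛ
  have hg : Good G (n + 1) v Λ := hΛ0.mono Finset.subset_union_left
  have hgx : ∀ x, G.Adj v x → Good G n x Λ := by
    intro x hx
    apply (hL x).mono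
    refine Finset.Subset.trans ?_ Finset.subset_union_right
    exact Finset.subset_biUnion_of_mem L (by rwa [SimpleGraph.mem_neighborFinset])
  have hqx : ∀ x, G.Adj v x → q p Λ (fam G n x) ≤ t := by
    intro x hx
    have := ht x hx
    rw [Ev_eq (hgx x hx), measureReal_def, cyl_prob, ENNReal.toReal_ofReal (q_nonneg h0 h1 _ _)]
      at this
    exact this
  rw [Ev_eq hg, measureReal_def, cyl_prob, ENNReal.toReal_ofReal (q_nonneg h0 h1 _ _)]
  calc q p Λ (fam G (n + 1) v) ≤ q p Λ (⋃ xy ∈ (G.neighborFinset v) ×ˢ (G.neighborFinset v),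
        box (fam G n xy.1) (fam G n xy.2)) := q_mono h0 h1 _ (fam_succ G n v)
    _ ≤ ∑ xy ∈ (G.neighborFinset v) ×ˢ (G.neighborFinset v),
        q p Λ (box (fam G n xy.1) (fam G n xy.2)) := q_iUnion_le h0 h1 _ _ _
    _ ≤ ∑ xy ∈ (G.neighborFinset v) ×ˢ (G.neighborFinset v), t ^ 2 := by
        apply Finset.sum_le_sum
        intro xy hxy
        simp only [Finset.mem_product, SimpleGraph.mem_neighborFinset] at hxy
        refine (bk h0 h1 Λ _ _ (fam_up G n _) (fam_up G n _)).trans ?_
        rw [sq]
        exact mul_le_mul (hqx _ hxy.1) (hqx _ hxy.2) (q_nonneg h0 h1 _ _) ht0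
    _ = (G.degree v : ℝ) ^ 2 * t ^ 2 := by
        rw [Finset.sum_const, Finset.card_product, SimpleGraph.card_neighborFinset_eq_degree]
        simp [sq]

/-- rooted infinite event -/
def Einf (G : SimpleGraph V) (v : V) : Set (G.edgeSet → Bool) :=
  {ω | ∃ f : List Bool → V, f [] = v ∧ Function.Injective f ∧
    ∀ w b, (openGraph G ω).Adj (f w) (f (b :: w))}

theorem T2_adj (w : List Bool) (b : Bool) : T2.Adj w (b :: w) := by
  unfold T2
  rw [SimpleGraph.fromRel_adj]
  refine ⟨?_, Or.inl ⟨b, rfl⟩⟩
  intro h
  have := congrArg List.length h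
  simp at this

theorem treeEvent_eq (G : SimpleGraph V) : treeEvent G = ⋃ v, Einf G v := by
  ext ω
  simp only [Set.mem_iUnion]
  constructor
  · rintro ⟨C, ⟨φ⟩⟩
    refine ⟨(φ []).1, fun w => (φ w).1, rfl, ?_, ?_⟩
    · intro a b hab
      exact φ.injective (Subtype.ext hab)
    · intro w b
      have := φ.toHom.map_adj (T2_adj w b)
      exact this
  · rintro ⟨v, f, h0, hinj, hadj⟩
    have hreach : ∀ w, (openGraph G ω).Reachable v (f w) := by
      intro w
      induction w with
      | nil => rw [h0]
      | cons b w ih => exact ih.trans (hadj w b).reachable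
    refine ⟨(openGraph G ω).connectedComponentMk v, ⟨⟨⟨fun w => ⟨f w, ?_⟩, ?_⟩, ?_⟩⟩⟩
    · change f w ∈ ((openGraph G ω).connectedComponentMk v).supp
      rw [SimpleGraph.ConnectedComponent.mem_supp_iff, SimpleGraph.ConnectedComponent.eq]
      exact (hreach w).symm
    · intro w w' h
      unfold T2 at h
      rw [SimpleGraph.fromRel_adj] at h
      rcases h.2 with ⟨b, rfl⟩ | ⟨b, rfl⟩
      · exact hadj w b
      · exact (hadj w' b).symm
    · intro a b hab
      exact hinj (congrArg Subtype.val hab)

theorem Ev_anti (G : SimpleGraph V) (v : V) {m n : ℕ} (h : m ≤ n) : Ev G n v ⊆ Ev G m v := by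
  rintro ω ⟨f, h0, hf⟩
  exact ⟨f, h0, hf.le h⟩

/-- compactness -/
theorem Einf_eq (G : SimpleGraph V) [G.LocallyFinite] (v : V) : Einf G v = ⋂ n, Ev G n v := by
  classical
  ext ω
  simp only [Set.mem_iInter]
  constructor
  · rintro ⟨f, h0, hinj, hadj⟩ n
    exact ⟨f, h0, fun w _ b => hadj w b, hinj.injOn⟩
  · intro h
    let _ : TopologicalSpace V := ⊥
    have : DiscreteTopology V := ⟨rfl⟩
    set C : ℕ → Set (List Bool → V) := fun n =>
      {f | (∀ w, f w ∈ rch G v w.length) ∧ f [] = v ∧ Emb (openGraph G ω) n f} with hC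
    have hcl : ∀ n, IsClosed (C n) := by
      intro n
      have e : C n = (⋂ w, {f | f w ∈ rch G v w.length}) ∩ ({f | f [] = v} ∩
          ((⋂ w : List Bool, ⋂ (_ : w.length < n), ⋂ b : Bool,
            {f | (openGraph G ω).Adj (f w) (f (b :: w))}) ∩
          (⋂ w : List Bool, ⋂ w' : List Bool, ⋂ (_ : w.length ≤ n), ⋂ (_ : w'.length ≤ n),
            ⋂ (_ : w ≠ w'), {f : List Bool → V | f w ≠ f w'}))) := by
        ext f
        simp only [hC, Emb, Set.mem_ofPred_eq, Set.mem_inter_iff, Set.mem_iInter, Set.InjOn]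
        constructor
        · rintro ⟨h1, h2, h3, h4⟩
          exact ⟨h1, h2, h3, fun w w' hw hw' hne heq => hne (h4 hw hw' heq)⟩
        · rintro ⟨h1, h2, h3, h4⟩
          refine ⟨h1, h2, h3, fun w hw w' hw' heq => ?_⟩
          by_contra hne
          exact h4 w w' hw hw' hne heq
      rw [e]
      refine (isClosed_iInter fun w => ?_).inter (IsClosed.inter ?_ (IsClosed.inter ?_ ?_))
      · exact IsClosed.preimage (f := fun f : List Bool → V => f w) (continuous_apply w)
          (isClosed_discrete (rch G v w.length : Set V))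
      · exact IsClosed.preimage (f := fun f : List Bool → V => f []) (continuous_apply [])
          (isClosed_discrete ({v} : Set V))
      · refine isClosed_iInter fun w => isClosed_iInter fun _ => isClosed_iInter fun b => ?_
        exact IsClosed.preimage (f := fun f : List Bool → V => (f w, f (b :: w)))
          ((continuous_apply w).prodMk (continuous_apply (b :: w)))
          (isClosed_discrete {x : V × V | (openGraph G ω).Adj x.1 x.2})
      · refine isClosed_iInter fun w => isClosed_iInter fun w' => isClosed_iInter fun _ =>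
          isClosed_iInter fun _ => isClosed_iInter fun _ => ?_
        exact IsClosed.preimage (f := fun f : List Bool → V => (f w, f w'))
          ((continuous_apply w).prodMk (continuous_apply w'))
          (isClosed_discrete {x : V × V | x.1 ≠ x.2})
    have hcomp : IsCompact (C 0) := by
      apply IsCompact.of_isClosed_subset (isCompact_univ_pi
        (s := fun w : List Bool => (rch G v w.length : Set V))
        (fun w => (Finset.finite_toSet _).isCompact)) (hcl 0)
      intro f hf w _
      exact hf.1 w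
    have hne : ∀ n, (C n).Nonempty := by
      intro n
      obtain ⟨f, h0, hf⟩ := h n
      refine ⟨fun w => if w.length ≤ n then f w else v, ?_, ?_, ?_, ?_⟩
      · intro w
        by_cases hw : w.length ≤ n
        · simp only [hw, if_true]
          exact mem_rch G h0 (hf.mono (openGraph_le G ω)) w hw
        · simp only [hw, if_false]
          exact mem_rch_self G v _
      · simp [h0]
      · intro w hw b
        have h1 : w.length ≤ n := hw.le
        have h2 : (b :: w).length ≤ n := by simp; omega
        simp only [h1, h2, if_true]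
        exact hf.1 w hw b
      · intro w hw w' hw' heq
        simp only [Set.mem_ofPred_eq] at hw hw'
        simp only [hw, hw', if_true] at heq
        exact hf.2 hw hw' heq
    have hnest : ∀ n, C (n + 1) ⊆ C n := by
      rintro n f ⟨h1, h2, h3⟩
      exact ⟨h1, h2, h3.le (Nat.le_succ n)⟩
    obtain ⟨f, hf⟩ := IsCompact.nonempty_iInter_of_sequence_nonempty_isCompact_isClosed C hnest
      hne hcomp hcl
    simp only [Set.mem_iInter] at hf
    refine ⟨f, (hf 0).2.1, ?_, ?_⟩
    · intro w w' heq
      exact (hf (max w.length w'.length)).2.2.2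
        (show w.length ≤ max w.length w'.length from le_max_left _ _)
        (show w'.length ≤ max w.length w'.length from le_max_right _ _) heq
    · intro w b
      exact (hf (w.length + 1)).2.2.1 w (Nat.lt_succ_self _) b

theorem Einf_meas (G : SimpleGraph V) [G.LocallyFinite] (v : V) : MeasurableSet (Einf G v) := by
  rw [Einf_eq]; exact MeasurableSet.iInter (fun n => Ev_meas G n v)

theorem Ev_continuous (G : SimpleGraph V) [G.LocallyFinite] (n : ℕ) (v : V) :
    Continuous (fun p : unitInterval => (percMeasure G.edgeSet p).real (Ev G n v)) := by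
  classical
  obtain ⟨Λ, h⟩ := exists_good G n v
  have e : (fun p : unitInterval => (percMeasure G.edgeSet p).real (Ev G n v)) =
      fun p : unitInterval => q (p : ℝ) Λ (fam G n v) := by
    ext p
    rw [Ev_eq h, measureReal_def, cyl_prob, ENNReal.toReal_ofReal (q_nonneg p.2.1 p.2.2 _ _)]
  rw [e]
  exact (q_continuous Λ (fam G n v)).comp continuous_subtype_val

/-- lower bound passes to the limit -/
theorem Einf_ge (G : SimpleGraph V) [G.LocallyFinite] (v : V) (p : unitInterval) (c : ℝ)
    (h : ∀ n, c ≤ (percMeasure G.edgeSet p).real (Ev G n v)) : c ≤ (percMeasure G.edgeSet p).real (Einf G v) := by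
  rw [Einf_eq]
  have ht := tendsto_measure_iInter_atTop (μ := percMeasure G.edgeSet p) (s := fun n => Ev G n v)
    (fun n => (Ev_meas G n v).nullMeasurableSet) (fun m n hmn => Ev_anti G v hmn)
    ⟨0, measure_ne_top _ _⟩
  have ht2 := (ENNReal.tendsto_toReal (measure_ne_top _ _)).comp ht
  exact ge_of_tendsto ht2 (Filter.Eventually.of_forall h)

/-- invariance under automorphisms -/
theorem Ev_aut (G : SimpleGraph V) (φ : G ≃g G) (p : unitInterval) (n : ℕ) (v : V) :
    (percMeasure G.edgeSet p).real (Ev G n (φ v)) = (percMeasure G.edgeSet p).real (Ev G n v) := by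
  set e : G.edgeSet ≃ G.edgeSet := φ.mapEdgeSet with he
  have hmap : (percMeasure G.edgeSet p).map (MeasurableEquiv.piCongrLeft (fun _ : G.edgeSet => Bool) e) =
      percMeasure G.edgeSet p := by
    unfold percMeasure
    exact Measure.infinitePi_map_piCongrLeft (μ := fun _ : G.edgeSet => bernoulliMeasure true false p) e
  have hset : (MeasurableEquiv.piCongrLeft (fun _ : G.edgeSet => Bool) e) ⁻¹' (Ev G n (φ v)) =
      Ev G n v := by
    have hval : ∀ (ω : G.edgeSet → Bool) (u w : V) (h : G.Adj u w),
        (MeasurableEquiv.piCongrLeft (fun _ : G.edgeSet => Bool) e) ω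
          ⟨s(φ u, φ w), φ.map_adj_iff.2 h⟩ = ω ⟨s(u, w), h⟩ := by
      intro ω u w h
      have : (⟨s(φ u, φ w), φ.map_adj_iff.2 h⟩ : G.edgeSet) = e ⟨s(u, w), h⟩ := by
        apply Subtype.ext
        simp [he]
      rw [this]
      exact Equiv.piCongrLeft_apply_apply (P := fun _ : G.edgeSet => Bool) e ω _
    ext ω
    simp only [Set.mem_preimage]
    constructor
    · rintro ⟨f, h0, hf1, hf2⟩
      refine ⟨fun w => φ.symm (f w), by simp [h0], ?_, ?_⟩
      · intro w hw b
        obtain ⟨h1, h2⟩ := hf1 w hw b
        have h3 : G.Adj (φ.symm (f w)) (φ.symm (f (b :: w))) := φ.symm.map_adj_iff.2 h1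
        refine ⟨h3, ?_⟩
        rw [← hval ω _ _ h3, ← h2]
        exact congrArg _ (Subtype.ext (by simp))
      · intro w hw w' hw' heq
        exact hf2 hw hw' (φ.symm.injective heq)
    · rintro ⟨f, h0, hf1, hf2⟩
      refine ⟨fun w => φ (f w), by simp [h0], ?_, ?_⟩
      · intro w hw b
        obtain ⟨h1, h2⟩ := hf1 w hw b
        refine ⟨φ.map_adj_iff.2 h1, ?_⟩
        rw [← h2]
        exact hval ω _ _ h1
      · intro w hw w' hw' heq
        exact hf2 hw hw' (φ.injective heq)
  rw [measureReal_def, measureReal_def]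
  congr 1
  conv_lhs => rw [← hmap]
  rw [MeasurableEquiv.map_apply, hset]

theorem jump (G : SimpleGraph V) [Countable V] [G.LocallyFinite] (k : ℕ)
    (hk : ∀ v, G.degree v ≤ k) (htrans : ∀ v w, ∃ φ : G ≃g G, φ v = w) (p : unitInterval)
    (hp : percMeasure G.edgeSet p (treeEvent G) ≠ 0) (n : ℕ) (v : V) :
    1 / (k : ℝ) ^ 2 ≤ (percMeasure G.edgeSet p).real (Ev G n v) := by
  have h1 : ∃ v0, percMeasure G.edgeSet p (Einf G v0) ≠ 0 := by
    by_contra hcon
    push Not at hcon
    apply hp
    rw [treeEvent_eq]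
    exact measure_iUnion_null hcon
  obtain ⟨v0, hv0⟩ := h1
  have hsame : ∀ m w, (percMeasure G.edgeSet p).real (Ev G m w) = (percMeasure G.edgeSet p).real (Ev G m v0) := by
    intro m w
    obtain ⟨φ, hφ⟩ := htrans v0 w
    rw [← hφ, Ev_aut]
  set s : ℕ → ℝ := fun m => (percMeasure G.edgeSet p).real (Ev G m v0) with hs
  have hr : 0 < (percMeasure G.edgeSet p).real (Einf G v0) := by
    rw [measureReal_def]
    exact ENNReal.toReal_pos hv0 (measure_ne_top _ _)
  have hsr : ∀ m, (percMeasure G.edgeSet p).real (Einf G v0) ≤ s m := by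
    intro m
    refine measureReal_mono ?_ (measure_ne_top _ _)
    rw [Einf_eq]
    exact Set.iInter_subset _ m
  have hs0 : ∀ m, 0 ≤ s m := fun m => measureReal_nonneg
  have hsucc : ∀ m, s (m + 1) ≤ (k : ℝ) ^ 2 * s m ^ 2 := by
    intro m
    refine (Ev_succ_le G p m v0 (s m) (hs0 m) (fun x _ => (hsame m x).le)).trans ?_
    have : (G.degree v0 : ℝ) ^ 2 ≤ (k : ℝ) ^ 2 := by
      have := hk v0
      gcongr
    exact mul_le_mul_of_nonneg_right this (sq_nonneg _)
  have hanti : ∀ m j, s (m + j) ≤ s m := by
    intro m j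
    exact measureReal_mono (Ev_anti G v0 (Nat.le_add_right m j))
  rw [hsame n v]
  by_contra hlt
  push Not at hlt
  change s n < 1 / (k : ℝ) ^ 2 at hlt
  set ρ : ℝ := (k : ℝ) ^ 2 * s n with hρ
  have hρ0 : 0 ≤ ρ := mul_nonneg (sq_nonneg _) (hs0 n)
  have hρ1 : ρ < 1 := by
    rcases Nat.eq_zero_or_pos k with hk0 | hk0
    · rw [hρ, hk0]; simp
    · have hk2 : (0 : ℝ) < (k : ℝ) ^ 2 := by positivity
      rw [lt_div_iff₀ hk2] at hlt
      rw [hρ, mul_comm]; exact hlt
  have hdec : ∀ j, s (n + j) ≤ s n * ρ ^ j := by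
    intro j
    induction j with
    | zero => simp
    | succ j ih =>
      have a1 := hsucc (n + j)
      have a2 : (k : ℝ) ^ 2 * s (n + j) ≤ ρ :=
        mul_le_mul_of_nonneg_left (hanti n j) (sq_nonneg _)
      calc s (n + (j + 1)) ≤ (k : ℝ) ^ 2 * s (n + j) ^ 2 := a1
        _ = ((k : ℝ) ^ 2 * s (n + j)) * s (n + j) := by ring
        _ ≤ ρ * (s n * ρ ^ j) := mul_le_mul a2 ih (hs0 _) hρ0
        _ = s n * ρ ^ (j + 1) := by ring
  have hlim : Filter.Tendsto (fun j => s n * ρ ^ j) Filter.atTop (nhds (s n * 0)) :=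
    (tendsto_pow_atTop_nhds_zero_of_lt_one hρ0 hρ1).const_mul _
  rw [mul_zero] at hlim
  have : (percMeasure G.edgeSet p).real (Einf G v0) ≤ 0 :=
    ge_of_tendsto' hlim (fun j => (hsr (n + j)).trans (hdec j))
  linarith

/-- General theorem: on a locally finite vertex-transitive countable graph for which the
critical value is defined by a non-empty set, the transition is first-order. -/
theorem main_general (G : SimpleGraph V) [Countable V] [G.LocallyFinite] (k : ℕ)
    (hk : ∀ v, G.degree v ≤ k) (htrans : ∀ v w, ∃ φ : G ≃g G, φ v = w)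
    (hne : {p : unitInterval | percMeasure G.edgeSet p (treeEvent G) = 1}.Nonempty) (v : V) :
    1 / (k : ℝ) ^ 2 ≤ (percMeasure G.edgeSet (pbt G)).real (Einf G v) := by
  apply Einf_ge
  intro n
  have hcl : IsClosed {p : unitInterval | 1 / (k : ℝ) ^ 2 ≤ (percMeasure G.edgeSet p).real (Ev G n v)} :=
    isClosed_le continuous_const (Ev_continuous G n v)
  have hsub : {p : unitInterval | percMeasure G.edgeSet p (treeEvent G) = 1} ⊆
      {p : unitInterval | 1 / (k : ℝ) ^ 2 ≤ (percMeasure G.edgeSet p).real (Ev G n v)} := by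
    intro p hp
    apply jump G k hk htrans p
    simp only [Set.mem_ofPred_eq] at hp
    rw [hp]; exact one_ne_zero
  have hmem : pbt G ∈ closure {p : unitInterval | percMeasure G.edgeSet p (treeEvent G) = 1} :=
    csInf_mem_closure hne (OrderBot.bddBelow _)
  exact closure_minimal hsub hcl hmem

end TreeSec

theorem percMeasure_one {V : Type} (G : SimpleGraph V) :
    percMeasure G.edgeSet 1 = Measure.dirac (fun _ => true) := by
  unfold percMeasure
  simp only [bernoulliMeasure_one]
  exact Measure.infinitePi_dirac _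

/-- On every countable, locally finite, vertex-transitive graph that contains a full binary tree
(in particular on the `k`-regular planar triangulation with `k ≥ 7`), bond percolation at the
critical value `p_bt` contains an embedded full binary tree with positive probability. -/
theorem result {V : Type} [Countable V] (G : SimpleGraph V)
    (hloc : ∀ v, (G.neighborSet v).Finite)
    (htrans : ∀ u v : V, ∃ φ : G ≃g G, φ u = v)
    (hT : T2.IsContained G) :
    0 < percMeasure G.edgeSet (pbt G) (treeEvent G) := by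
  let _ : G.LocallyFinite := fun v => (hloc v).fintype
  obtain ⟨φ⟩ := hT
  set v0 : V := φ [] with hv0
  set k : ℕ := G.degree v0 with hk
  have hdeg : ∀ v, G.degree v ≤ k := by
    intro v
    obtain ⟨ψ, hψ⟩ := htrans v0 v
    have e1 : (G.neighborSet v).ncard = (G.neighborSet v0).ncard := by
      have : G.neighborSet v = ψ '' G.neighborSet v0 := by
        ext w
        simp only [SimpleGraph.mem_neighborSet, Set.mem_image]
        constructor
        · intro h
          refine ⟨ψ.symm w, ?_, by simp⟩
          rw [← ψ.map_adj_iff, hψ]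
          simpa using h
        · rintro ⟨x, hx, rfl⟩
          rw [← hψ]; exact ψ.map_adj_iff.2 hx
      rw [this, Set.ncard_image_of_injective _ ψ.injective]
    rw [hk, ← SimpleGraph.card_neighborSet_eq_degree, ← SimpleGraph.card_neighborSet_eq_degree,
      ← Nat.card_eq_fintype_card, ← Nat.card_eq_fintype_card]
    exact e1.le
  have hkpos : 0 < k := by
    rw [hk, SimpleGraph.degree_pos_iff_exists_adj]
    exact ⟨φ [true], φ.toHom.map_adj (T2_adj [] true)⟩
  have hne : {p : unitInterval | percMeasure G.edgeSet p (treeEvent G) = 1}.Nonempty := by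
    refine ⟨1, ?_⟩
    show percMeasure G.edgeSet 1 (treeEvent G) = 1
    rw [percMeasure_one]
    have hmeas : MeasurableSet (treeEvent G) := by
      rw [treeEvent_eq]
      exact MeasurableSet.iUnion (fun v => Einf_meas G v)
    rw [Measure.dirac_apply' _ hmeas, Set.indicator_of_mem]
    · rfl
    · rw [treeEvent_eq, Set.mem_iUnion]
      exact ⟨φ [], fun w => φ w, rfl, φ.injective, fun w b => ⟨φ.toHom.map_adj (T2_adj w b), rfl⟩⟩
  have h := main_general G k hdeg htrans hne v0
  have hkr : (0 : ℝ) < k := by exact_mod_cast hkpos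
  have h1 : 0 < (percMeasure G.edgeSet (pbt G)).real (Einf G v0) :=
    lt_of_lt_of_le (by positivity) h
  rw [measureReal_def, ENNReal.toReal_pos_iff] at h1
  refine lt_of_lt_of_le h1.1 (measure_mono ?_)
  rw [treeEvent_eq]
  exact Set.subset_iUnion (fun v => Einf G v) v0

end Pool.Agent.Results.MP_950aae_pr.Transitive
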